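import Pool.Agent.Lib.MP_322c76_al.Layer

/-!
# Series with linear factors
-/

open Pointwise

namespace Pool.Agent.Lib.MP_322c76_al

universe u

/-- `G` has a series of length `l` in which every term is the kernel of a homomorphism from the
previous one, either to a commutative group or to the group of invertible `e × e` matrices over
some commutative ring, `e ≤ d`. -/
def LinearSeries (d : ℕ) : ℕ → ∀ (G : Type u) [Group G], Prop
  | 0, G, _ => Subsingleton G
  | l + 1, G, _ =>
    (∃ (A : Type u) (_ : CommGroup A) (f : G →* A), LinearSeries d l f.ker) ∨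
    (∃ (R : Type u) (_ : CommRing R) (e : ℕ) (f : G →* (Matrix (Fin e) (Fin e) R)ˣ),
      e ≤ d ∧ LinearSeries d l f.ker)

/-- a commutative group is linear of degree one over a commutative ring -/
theorem comm_linear {G A : Type u} [Group G] [CommGroup A] (f : G →* A) :
    ∃ (R : Type u) (_ : CommRing R) (f' : G →* (Matrix (Fin 1) (Fin 1) R)ˣ), f'.ker = f.ker := by
  let ψ : MonoidAlgebra ℤ A →* Matrix (Fin 1) (Fin 1) (MonoidAlgebra ℤ A) :=
    (algebraMap (MonoidAlgebra ℤ A) (Matrix (Fin 1) (Fin 1) (MonoidAlgebra ℤ A))).toMonoidHom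
  let g : G →* Matrix (Fin 1) (Fin 1) (MonoidAlgebra ℤ A) :=
    ψ.comp ((MonoidAlgebra.of ℤ A).comp f)
  refine ⟨MonoidAlgebra ℤ A, inferInstance, g.toHomUnits, ?_⟩
  rw [ker_units]
  ext x
  rw [MonoidHom.mem_ker, MonoidHom.mem_ker]
  constructor
  · intro h
    have h1 : ψ (MonoidAlgebra.of ℤ A (f x)) = ψ 1 := by
      rw [map_one]; exact h
    have h2 : MonoidAlgebra.of ℤ A (f x) = 1 := by
      have h3 := congrFun (congrFun h1 0) 0
      simpa [ψ, Matrix.algebraMap_matrix_apply] using h3
    rw [← map_one (MonoidAlgebra.of ℤ A)] at h2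
    exact MonoidAlgebra.of_injective h2
  · intro h
    change ψ (MonoidAlgebra.of ℤ A (f x)) = 1
    rw [h, map_one, map_one]

/-- one layer of degree at most `d` -/
theorem layer_le (k n d : ℕ) (hn : 0 < n) : ∃ N B : ℕ, ∀ e ≤ d, ∀ (R : Type u) [CommRing R]
    (G : Type u) [Group G] (a : Fin k → G) (f : G →* (Matrix (Fin e) (Fin e) R)ˣ),
      Subgroup.closure (Set.range a) = ⊤ → (∀ w : List (Fin k), w.length ≤ N → wp a w ^ n = 1) →
        f.ker.FiniteIndex ∧ f.ker.index ≤ B := by
  induction d with
  | zero =>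
    obtain ⟨N, B, h⟩ := layer.{u, u} k n 0 hn
    refine ⟨N, B, fun e he => ?_⟩
    obtain rfl : e = 0 := by omega
    exact h
  | succ d ih =>
    obtain ⟨N, B, h⟩ := ih
    obtain ⟨N', B', h'⟩ := layer.{u, u} k n (d + 1) hn
    refine ⟨max N N', max B B', fun e he R _ G _ a f hg hw => ?_⟩
    rcases Nat.lt_or_ge e (d + 1) with h1 | h1
    · obtain ⟨h2, h3⟩ := h e (by omega) R G a f hg fun w hwl =>
        hw w (hwl.trans (le_max_left _ _))
      exact ⟨h2, h3.trans (le_max_left _ _)⟩
    · obtain rfl : e = d + 1 := by omega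
      obtain ⟨h2, h3⟩ := h' R G a f hg fun w hwl => hw w (hwl.trans (le_max_right _ _))
      exact ⟨h2, h3.trans (le_max_right _ _)⟩

/-- short words suffice in a finite group -/
theorem short_word {Q : Type*} [Group Q] [Finite Q] {ι : Type*} (a : ι → Q)
    (h : ∀ g, ∃ w, wp a w = g) (g : Q) : ∃ w : List ι, w.length < Nat.card Q ∧ wp a w = g := by
  classical
  have hex : ∃ m, ∃ w : List ι, w.length = m ∧ wp a w = g := by
    obtain ⟨w, hw⟩ := h g
    exact ⟨w.length, w, rfl, hw⟩
  obtain ⟨w, hwl, hw⟩ := Nat.find_spec hex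
  refine ⟨w, ?_, hw⟩
  by_contra hlt
  push Not at hlt
  have hni : ¬ Function.Injective (fun i : Fin (w.length + 1) => wp a (w.take i)) := by
    intro hinj
    have h1 := Nat.card_le_card_of_injective _ hinj
    rw [Nat.card_eq_fintype_card, Fintype.card_fin] at h1
    omega
  have hex2 : ∃ i j : ℕ, i < j ∧ j ≤ w.length ∧ wp a (w.take i) = wp a (w.take j) := by
    rw [Function.Injective] at hni
    push Not at hni
    obtain ⟨i, j, hij, hne⟩ := hni
    rcases lt_or_gt_of_ne (fun h => hne (Fin.ext h) : (i : ℕ) ≠ j) with h | h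
    · exact ⟨i, j, h, by omega, hij⟩
    · exact ⟨j, i, h, by omega, hij.symm⟩
  obtain ⟨i, j, hij, hj, heq⟩ := hex2
  have hmin := Nat.find_min hex (m := (w.take i ++ w.drop j).length) (by
    rw [List.length_append, List.length_take, List.length_drop, ← hwl]
    omega)
  apply hmin
  refine ⟨_, rfl, ?_⟩
  rw [wp_append, heq, ← wp_append, List.take_append_drop, hw]

theorem pos_word {G : Type*} [Group G] {ι : Type*} (a : ι → G) {n : ℕ} (hn : 0 < n)
    (h : ∀ i, a i ^ n = 1) {g : G} (hg : g ∈ Subgroup.closure (Set.range a)) :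
    ∃ w, wp a w = g := by
  let P : Submonoid G :=
    { carrier := {g | ∃ w, wp a w = g}
      one_mem' := ⟨[], rfl⟩
      mul_mem' := by
        rintro x y ⟨v, rfl⟩ ⟨w, rfl⟩
        exact ⟨v ++ w, wp_append a v w⟩ }
  have h1 : (Subgroup.closure (Set.range a)).toSubmonoid ≤ P := by
    rw [Subgroup.closure_toSubmonoid, Submonoid.closure_le]
    rintro x (⟨i, rfl⟩ | hx)
    · exact ⟨[i], wp_single a i⟩
    · rw [Set.mem_inv] at hx
      obtain ⟨i, hi⟩ := hx
      refine ⟨List.replicate (n - 1) i, ?_⟩
      have h2 : wp a (List.replicate (n - 1) i) = a i ^ (n - 1) := by simp [wp]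
      have h3 : x = (a i)⁻¹ := by rw [hi, inv_inv]
      rw [h2, h3]
      apply eq_inv_of_mul_eq_one_left
      rw [← pow_succ, Nat.sub_add_cancel hn]
      exact h i
  exact h1 hg

/-- words in the Schreier generators -/
theorem word_flat {G : Type*} [Group G] {H : Subgroup G} {k k' : ℕ} (a : Fin k → G)
    (b : Fin k' → H) (c : Fin k' → List (Fin k)) (hc : ∀ j, wp a (c j) = b j) {L : ℕ}
    (hL : ∀ j, (c j).length ≤ L) (v : List (Fin k')) :
    ∃ w : List (Fin k), w.length ≤ L * v.length ∧ wp a w = (wp b v : H) := by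
  induction v with
  | nil => exact ⟨[], by simp, rfl⟩
  | cons j v ih =>
    obtain ⟨w, hw1, hw2⟩ := ih
    refine ⟨c j ++ w, ?_, ?_⟩
    · rw [List.length_append, List.length_cons]
      have := hL j
      nlinarith
    · rw [wp_append, hc, hw2]
      simp [wp]

theorem main_series (d n : ℕ) (hn : 0 < n) (l : ℕ) : ∀ k : ℕ, ∃ N B : ℕ, ∀ (G : Type u) [Group G]
    (a : Fin k → G), Subgroup.closure (Set.range a) = ⊤ → LinearSeries d l G →
      (∀ w : List (Fin k), w.length ≤ N → wp a w ^ n = 1) → Finite G ∧ Nat.card G ≤ B := by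
  classical
  induction l with
  | zero =>
    intro k
    refine ⟨0, 1, fun G _ a _ hs _ => ?_⟩
    have : Subsingleton G := hs
    exact ⟨inferInstance, by rw [Nat.card_of_subsingleton (1 : G)]⟩
  | succ l ih =>
    intro k
    obtain ⟨N1, B1, h1⟩ := layer_le.{u} k n (max d 1) hn
    let W := {w : List (Fin k) // w.length ≤ B1}
    have hWfin : Finite W := List.finite_length_le (Fin k) B1
    let J := W × Fin k × W
    let e : J ≃ Fin (Nat.card J) := Finite.equivFin J
    obtain ⟨N2, B2, h2⟩ := ih (Nat.card J)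
    refine ⟨max (max N1 B1) (max 1 ((B1 + 1 + B1 * (n - 1)) * N2)), B1 * B2, ?_⟩
    intro G _ a hgen hs hw
    obtain ⟨R, _, e', f, he', hs'⟩ : ∃ (R : Type u) (_ : CommRing R) (e : ℕ)
        (f : G →* (Matrix (Fin e) (Fin e) R)ˣ), e ≤ max d 1 ∧ LinearSeries d l f.ker := by
      rcases hs with ⟨A, _, f, hs'⟩ | ⟨R, _, e', f, he', hs'⟩
      · obtain ⟨R, hR, f', hf'⟩ := comm_linear f
        exact ⟨R, hR, 1, f', le_max_right _ _, by rw [hf']; exact hs'⟩
      · exact ⟨R, _, e', f, he'.trans (le_max_left _ _), hs'⟩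
    have hwN1 : ∀ w : List (Fin k), w.length ≤ N1 → wp a w ^ n = 1 := fun w h =>
      hw w (h.trans ((le_max_left _ _).trans (le_max_left _ _)))
    have hwB1 : ∀ w : List (Fin k), w.length ≤ B1 → wp a w ^ n = 1 := fun w h =>
      hw w (h.trans ((le_max_right _ _).trans (le_max_left _ _)))
    have hwL : ∀ w : List (Fin k), w.length ≤ (B1 + 1 + B1 * (n - 1)) * N2 → wp a w ^ n = 1 :=
      fun w h => hw w (h.trans ((le_max_right _ _).trans (le_max_right _ _)))
    have ha : ∀ i, a i ^ n = 1 := fun i => by
      have := hw [i] (by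
        rw [List.length_singleton]
        exact (le_max_left 1 _).trans (le_max_right _ _))
      rwa [wp_single] at this
    obtain ⟨hfi, hidx⟩ := h1 e' he' R G a f hgen hwN1
    set H := f.ker with hH
    have hinv : ∀ w : List (Fin k), w.length ≤ B1 → wp a w ^ (n - 1) = (wp a w)⁻¹ := by
      intro w h
      apply eq_inv_of_mul_eq_one_left
      rw [← pow_succ, Nat.sub_add_cancel hn]
      exact hwB1 w h
    -- coset representatives
    have hrep : ∀ q : Quotient (QuotientGroup.rightRel H), ∃ w : List (Fin k),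
        w.length ≤ B1 ∧ Quotient.mk'' (wp a w) = q := by
      intro q
      obtain ⟨g, rfl⟩ := Quotient.exists_rep q
      obtain ⟨w, hwl, hwg⟩ := short_word (fun i => (a i : G ⧸ H)) (fun q => by
        induction q using QuotientGroup.induction_on with
        | H g =>
          obtain ⟨w, hw⟩ := pos_word a hn ha (g := g) (by rw [hgen]; trivial)
          refine ⟨w, ?_⟩
          rw [← hw]
          exact (map_wp (QuotientGroup.mk' H) a w).symm) (g : G ⧸ H)
      refine ⟨w, ?_, ?_⟩
      · have h3 : Nat.card (G ⧸ H) = H.index := rfl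
        rw [h3] at hwl
        omega
      · have h3 : ((wp a w : G) : G ⧸ H) = g := by
          rw [← hwg]
          exact map_wp (QuotientGroup.mk' H) a w
        rw [QuotientGroup.eq] at h3
        apply Quotient.sound
        change QuotientGroup.rightRel H _ _
        rw [QuotientGroup.rightRel_apply]
        exact (inferInstance : H.Normal).mem_comm h3
    choose c0 hc0 hc0' using hrep
    let c : Quotient (QuotientGroup.rightRel H) → List (Fin k) := fun q =>
      if q = Quotient.mk'' (1 : G) then [] else c0 q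
    have hc : ∀ q, (c q).length ≤ B1 := by
      intro q
      simp only [c]
      split_ifs
      · simp
      · exact hc0 q
    have hc' : ∀ q, Quotient.mk'' (wp a (c q)) = q := by
      intro q
      simp only [c]
      split_ifs with h
      · rw [h]; rfl
      · exact hc0' q
    have hcomp := Subgroup.isComplement_range_right (H := H) (f := fun q => wp a (c q)) hc'
    have hone : (1 : G) ∈ Set.range (fun q => wp a (c q)) := by
      refine ⟨Quotient.mk'' (1 : G), ?_⟩
      simp [c, wp_nil]
    have hsch := Subgroup.closure_mul_image_eq_top hcomp hone hgen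
    -- Schreier generators
    let word : J → List (Fin k) := fun j =>
      (j.1 : List (Fin k)) ++ [j.2.1] ++ (List.replicate (n - 1) (j.2.2 : List (Fin k))).flatten
    have hword : ∀ j, wp a (word j) = wp a (j.1 : List (Fin k)) * a j.2.1 *
        (wp a (j.2.2 : List (Fin k)))⁻¹ := by
      intro j
      simp only [word]
      rw [wp_append, wp_append, wp_single, wp_flatten, hinv _ j.2.2.2]
    have hlen : ∀ j, (word j).length ≤ B1 + 1 + B1 * (n - 1) := by
      intro j
      simp only [word]
      rw [List.length_append, List.length_append, List.length_singleton, List.length_flatten,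
        List.map_replicate, List.sum_replicate, smul_eq_mul]
      have h3 := j.1.2
      have h4 := j.2.2.2
      have h5 : (n - 1) * (j.2.2 : List (Fin k)).length ≤ B1 * (n - 1) := by
        rw [mul_comm]
        exact Nat.mul_le_mul_right _ h4
      omega
    let cw : Fin (Nat.card J) → List (Fin k) := fun m =>
      if wp a (word (e.symm m)) ∈ H then word (e.symm m) else []
    have hcw : ∀ m, wp a (cw m) ∈ H := by
      intro m
      simp only [cw]
      split_ifs with h
      · exact h
      · rw [wp_nil]; exact H.one_mem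
    let b : Fin (Nat.card J) → H := fun m => ⟨wp a (cw m), hcw m⟩
    have hcwlen : ∀ m, (cw m).length ≤ B1 + 1 + B1 * (n - 1) := by
      intro m
      simp only [cw]
      split_ifs
      · exact hlen _
      · simp
    have hgenH : Subgroup.closure (Set.range b) = ⊤ := by
      rw [eq_top_iff, ← hsch]
      refine Subgroup.closure_mono ?_
      rintro _ ⟨g, hg, rfl⟩
      obtain ⟨r, ⟨q, hq⟩, s, ⟨i, hi⟩, hrs⟩ := Set.mem_mul.1 hg
      obtain ⟨q', hq'⟩ := (hcomp.toRightFun g).2
      refine ⟨e (⟨c q, hc q⟩, i, ⟨c q', hc q'⟩), ?_⟩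
      apply Subtype.ext
      have h5 : wp a (word (⟨c q, hc q⟩, i, ⟨c q', hc q'⟩)) =
          g * ((hcomp.toRightFun g : G))⁻¹ := by
        rw [hword]
        have h6 : wp a (c q) = r := hq
        have h7 : wp a (c q') = (hcomp.toRightFun g : G) := hq'
        simp only [h6, h7]
        rw [hi, hrs]
      have h6 : wp a (word (⟨c q, hc q⟩, i, ⟨c q', hc q'⟩)) ∈ H := by
        rw [h5]
        exact hcomp.mul_inv_toRightFun_mem g
      change wp a (cw _) = _
      simp only [cw, Equiv.symm_apply_apply]
      rw [if_pos h6, h5]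
    obtain ⟨hfinH, hcardH⟩ := h2 H b hgenH hs' (fun v hv => by
      obtain ⟨w, hw1, hw2⟩ := word_flat a b cw (fun m => rfl) hcwlen v
      apply Subtype.ext
      rw [Subgroup.coe_pow, ← hw2]
      exact hwL w (hw1.trans (Nat.mul_le_mul_left _ hv)))
    have hcard : Nat.card G = Nat.card H * H.index := (Subgroup.card_mul_index H).symm
    refine ⟨?_, ?_⟩
    · have h3 : Nat.card G ≠ 0 := by
        rw [hcard]
        exact mul_ne_zero Nat.card_pos.ne' hfi.index_ne_zero
      exact Nat.finite_of_card_ne_zero h3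
    · rw [hcard, mul_comm B1 B2]
      exact Nat.mul_le_mul hcardH hidx

/-- **Main theorem**, in the form of the problem: bounded series with linear factors of bounded
degree. -/
theorem exponent_bound (d n : ℕ) (hn : 0 < n) (l k : ℕ) : ∃ N B : ℕ, ∀ (G : Type u) [Group G]
    (a : Fin k → G), Subgroup.closure (Set.range a) = ⊤ → LinearSeries d l G →
      (∀ w : List (Fin k), w.length ≤ N → wp a w ^ n = 1) →
        Finite G ∧ Nat.card G ≤ B ∧ ∀ g : G, g ^ n = 1 := by
  obtain ⟨N, B, h⟩ := main_series.{u} d n hn l k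
  refine ⟨max N (max 1 B), B, fun G _ a hgen hs hw => ?_⟩
  obtain ⟨h1, h2⟩ := h G a hgen hs fun w hwl => hw w (hwl.trans (le_max_left _ _))
  refine ⟨h1, h2, fun g => ?_⟩
  have ha : ∀ i, a i ^ n = 1 := fun i => by
    have := hw [i] (by
      rw [List.length_singleton]
      exact (le_max_left 1 _).trans (le_max_right _ _))
    rwa [wp_single] at this
  obtain ⟨w, hwl, rfl⟩ := short_word a (fun g => pos_word a hn ha (by rw [hgen]; trivial)) g
  exact hw w ((hwl.le.trans h2).trans ((le_max_right _ _).trans (le_max_right _ _)))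

end Pool.Agent.Lib.MP_322c76_al
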