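import Pool.Agent.Lib.MP_322c76_al.FieldFinite

/-!
# Finitely generated linear groups of finite exponent over Noetherian rings are finite
-/

namespace Pool.Agent.Lib.MP_322c76_al

theorem fi_prime {R : Type*} [CommRing R] (P : Ideal R) [P.IsPrime] {d : ℕ} {Γ : Type*} [Group Γ]
    [Group.FG Γ] (ρ : Γ →* Matrix (Fin d) (Fin d) R) {n : ℕ} (hn : 0 < n)
    (he : ∀ x, ρ x ^ n = 1) :
    (((Ideal.Quotient.mk P).mapMatrix.toMonoidHom).comp ρ).ker.FiniteIndex := by
  let K := AlgebraicClosure (FractionRing (R ⧸ P))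
  let φ : (R ⧸ P) →+* K := (algebraMap (FractionRing (R ⧸ P)) K).comp
    (algebraMap (R ⧸ P) (FractionRing (R ⧸ P)))
  have hφ : Function.Injective φ := (algebraMap (FractionRing (R ⧸ P)) K).injective.comp
    (IsFractionRing.injective (R ⧸ P) (FractionRing (R ⧸ P)))
  let σ : Γ →* Module.End K (Fin d → K) :=
    ((Matrix.toLinAlgEquiv' (R := K) (n := Fin d)).toAlgHom.toRingHom.toMonoidHom).comp
      ((φ.mapMatrix.toMonoidHom).comp (((Ideal.Quotient.mk P).mapMatrix.toMonoidHom).comp ρ))
  have h1 : σ.ker.FiniteIndex := by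
    refine fi_field hn d (Fin d → K) σ (by simp) fun x => ?_
    rw [← map_pow]
    have h2 : ρ (x ^ n) = 1 := by rw [map_pow, he]
    change _ = _
    simp only [σ, MonoidHom.comp_apply, h2, map_one]
  refine @Subgroup.finiteIndex_of_le _ _ _ _ h1 fun x hx => ?_
  rw [MonoidHom.mem_ker] at hx ⊢
  have h2 : (φ.mapMatrix) ((((Ideal.Quotient.mk P).mapMatrix.toMonoidHom).comp ρ) x) = 1 := by
    apply (Matrix.toLinAlgEquiv' (R := K) (n := Fin d)).injective
    rw [map_one]
    exact hx
  ext i j
  apply hφ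
  have h3 := congrFun (congrFun h2 i) j
  rw [RingHom.mapMatrix_apply, Matrix.map_apply] at h3
  rw [h3]
  by_cases h : i = j
  · subst h; simp
  · simp [h]

theorem fi_noeth {R : Type*} [CommRing R] [IsNoetherianRing R] {d : ℕ} {Γ : Type*} [Group Γ]
    [Group.FG Γ] (ρ : Γ →* Matrix (Fin d) (Fin d) R) {n : ℕ} (hn : 0 < n)
    (he : ∀ x, ρ x ^ n = 1) : ρ.ker.FiniteIndex := by
  set 𝔫 := nilradical R with h𝔫
  have hmem : ∀ (I : Ideal R) (g : Γ), g ∈ (((Ideal.Quotient.mk I).mapMatrix.toMonoidHom).comp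
      ρ).ker ↔ ∀ i j, (ρ g - 1) i j ∈ I := by
    intro I g
    rw [MonoidHom.mem_ker, ← Matrix.ext_iff]
    refine forall_congr' fun i => forall_congr' fun j => ?_
    rw [← Ideal.Quotient.eq_zero_iff_mem, Matrix.sub_apply, map_sub, sub_eq_zero]
    change (Ideal.Quotient.mk I (ρ g i j)) = _ ↔ _
    have : (1 : Matrix (Fin d) (Fin d) (R ⧸ I)) i j =
        Ideal.Quotient.mk I ((1 : Matrix (Fin d) (Fin d) R) i j) := by
      by_cases h : i = j
      · subst h; simp
      · simp [h]
    rw [this]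
  have hfi : ∀ i : ℕ, (((Ideal.Quotient.mk (𝔫 ^ (i + 1))).mapMatrix.toMonoidHom).comp
      ρ).ker.FiniteIndex := by
    intro i
    induction i with
    | zero =>
      have hfin : Finite (minimalPrimes R) := minimalPrimes.finite_of_isNoetherianRing R
      have h1 : (⨅ P : minimalPrimes R, (((Ideal.Quotient.mk (P : Ideal R)).mapMatrix.toMonoidHom).comp
          ρ).ker).FiniteIndex := by
        refine Subgroup.finiteIndex_iInf fun P => ?_
        have : (P : Ideal R).IsPrime := P.2.1.1
        exact fi_prime _ ρ hn he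
      refine @Subgroup.finiteIndex_of_le _ _ _ _ h1 fun x hx => ?_
      rw [hmem, zero_add, pow_one, h𝔫]
      intro i j
      rw [nilradical, ← Ideal.sInf_minimalPrimes, Ideal.mem_sInf]
      intro P hP
      rw [Subgroup.mem_iInf] at hx
      exact (hmem P x).1 (hx ⟨P, hP⟩) i j
    | succ i ih =>
      refine fi_of_restrict _ (((Ideal.Quotient.mk (𝔫 ^ (i + 1))).mapMatrix.toMonoidHom).comp
        ρ).ker ?_
      refine fi_of_comm _ hn (fun x y => ?_) fun x => ?_
      · set f := ((Ideal.Quotient.mk (𝔫 ^ (i + 1 + 1))).mapMatrix.toMonoidHom).comp ρ with hf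
        have key : ∀ a b : Γ, a ∈ (((Ideal.Quotient.mk (𝔫 ^ (i + 1))).mapMatrix.toMonoidHom).comp
            ρ).ker → b ∈ (((Ideal.Quotient.mk (𝔫 ^ (i + 1))).mapMatrix.toMonoidHom).comp
            ρ).ker → (f a - 1) * (f b - 1) = 0 := by
          intro a b ha hb
          rw [hmem] at ha hb
          have h1 : f a - 1 = (Ideal.Quotient.mk (𝔫 ^ (i + 1 + 1))).mapMatrix (ρ a - 1) := by
            rw [map_sub, map_one]; rfl
          have h2 : f b - 1 = (Ideal.Quotient.mk (𝔫 ^ (i + 1 + 1))).mapMatrix (ρ b - 1) := by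
            rw [map_sub, map_one]; rfl
          rw [h1, h2, ← map_mul]
          ext k l
          rw [RingHom.mapMatrix_apply, Matrix.map_apply, Matrix.zero_apply,
            Ideal.Quotient.eq_zero_iff_mem, Matrix.mul_apply]
          refine Ideal.sum_mem _ fun m _ => ?_
          have h3 : (ρ a - 1) k m * (ρ b - 1) m l ∈ 𝔫 ^ (i + 1) * 𝔫 ^ (i + 1) :=
            Ideal.mul_mem_mul (ha k m) (hb m l)
          rw [← pow_add] at h3
          exact Ideal.pow_le_pow_right (by omega) h3
        have h4 := key x y x.2 y.2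
        have h5 := key y x y.2 x.2
        change f x * f y = f y * f x
        have h6 : f x * f y = f x + f y - 1 := by
          have : (f x - 1) * (f y - 1) = f x * f y - f x - f y + 1 := by noncomm_ring
          rw [this] at h4
          rw [← sub_eq_zero, ← h4]
          abel
        have h7 : f y * f x = f x + f y - 1 := by
          have : (f y - 1) * (f x - 1) = f y * f x - f y - f x + 1 := by noncomm_ring
          rw [this] at h5
          rw [← sub_eq_zero, ← h5]
          abel
        rw [h6, h7]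
      · rw [← map_pow]
        have h2 : ρ ((x ^ n : _) : Γ) = 1 := by
          rw [Subgroup.coe_pow, map_pow, he]
        change (Ideal.Quotient.mk (𝔫 ^ (i + 1 + 1))).mapMatrix (ρ ((x ^ n : _) : Γ)) = 1
        rw [h2, map_one]
  obtain ⟨m, hm⟩ := IsNoetherianRing.isNilpotent_nilradical R
  refine @Subgroup.finiteIndex_of_le _ _ _ _ (hfi m) fun x hx => ?_
  rw [hmem] at hx
  rw [MonoidHom.mem_ker, ← sub_eq_zero]
  ext i j
  have h1 := hx i j
  rw [pow_succ, hm, Ideal.zero_eq_bot, Ideal.bot_mul, Ideal.mem_bot] at h1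
  exact h1

end Pool.Agent.Lib.MP_322c76_al
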