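import Pool.Agent.Lib.MP_322c76_al.Series

/-!
# Groups with a bound for the quotients of exponent dividing `n`

Let `G` be finite, `k`-generated, satisfying the condition for words of length `≤ N`, and suppose
that the exponent of `G` does not divide `n`. Take a normal subgroup `K` maximal with the property
that the exponent of `G ⧸ K` does not divide `n`, and a minimal normal subgroup `M` of `G ⧸ K`. Then
`(G ⧸ K) ⧸ M` has exponent dividing `n`, so it has at most `R` elements. If `M` is abelian or linear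
of degree at most `d`, then `G ⧸ K` has a linear series of length `2`, with degrees `≤ max d R`,
and the theorem on linear series gives a contradiction when `N` is large.
-/

set_option autoImplicit false

namespace Pool.Agent.Lib.MP_322c76_al

universe u

/-- `M` is commutative or embeds into the invertible `e × e` matrices over a commutative ring,
`e ≤ d`. -/
def AbelianOrLinear (d : ℕ) (M : Type u) [Group M] : Prop :=
  (∀ x y : M, x * y = y * x) ∨
    ∃ (R : Type u) (_ : CommRing R) (e : ℕ) (f : M →* (Matrix (Fin e) (Fin e) R)ˣ),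
      e ≤ d ∧ Function.Injective f

/-- `M` is a minimal normal subgroup of `Q`. -/
def MinimalNormal {Q : Type u} [Group Q] (M : Subgroup Q) : Prop :=
  M.Normal ∧ M ≠ ⊥ ∧ ∀ L : Subgroup Q, L.Normal → L ≤ M → L = ⊥ ∨ L = M

/-- every chief factor of `G` (minimal normal subgroup of a quotient) is abelian or linear of
degree at most `d` over a commutative ring -/
def ChiefLinear (d : ℕ) (G : Type u) [Group G] : Prop :=
  ∀ (K : Subgroup G) [K.Normal] (M : Subgroup (G ⧸ K)), MinimalNormal M → AbelianOrLinear d M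

theorem regular_linear (Q : Type u) [Group Q] [Finite Q] :
    ∃ f : Q →* (Matrix (Fin (Nat.card Q)) (Fin (Nat.card Q)) (ULift.{u} ℤ))ˣ,
      Function.Injective f := by
  classical
  let ε : Q ≃ Fin (Nat.card Q) := Finite.equivFin Q
  let m : Q →* Matrix (Fin (Nat.card Q)) (Fin (Nat.card Q)) (ULift.{u} ℤ) :=
    { toFun := fun g => Matrix.of fun i j => if i = ε (g * ε.symm j) then 1 else 0
      map_one' := by
        ext1 i j
        rw [Matrix.of_apply, Matrix.one_apply, one_mul, Equiv.apply_symm_apply]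
      map_mul' := by
        intro g h
        ext1 i j
        rw [Matrix.mul_apply, Matrix.of_apply,
          Finset.sum_eq_single (ε (h * ε.symm j))]
        · rw [Matrix.of_apply, Matrix.of_apply, if_pos rfl, mul_one, Equiv.symm_apply_apply,
            mul_assoc]
        · intro b _ hb
          rw [Matrix.of_apply, Matrix.of_apply, if_neg hb, mul_zero]
        · intro hn
          exact absurd (Finset.mem_univ _) hn }
  refine ⟨m.toHomUnits, ?_⟩
  intro g h hgh
  have h1 : m g = m h := congrArg Units.val hgh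
  have h2 : m g (ε g) (ε 1) = m h (ε g) (ε 1) := by rw [h1]
  have h3 : m g (ε g) (ε 1) = 1 := by
    show (if ε g = ε (g * ε.symm (ε 1)) then (1 : ULift.{u} ℤ) else 0) = 1
    rw [if_pos]
    rw [Equiv.symm_apply_apply, mul_one]
  have h4 : m h (ε g) (ε 1) = if ε g = ε (h * ε.symm (ε 1)) then (1 : ULift.{u} ℤ) else 0 := rfl
  rw [h3, h4] at h2
  by_contra hne
  rw [if_neg] at h2
  · exact one_ne_zero h2
  · intro h5
    rw [Equiv.symm_apply_apply, mul_one] at h5
    exact hne (ε.injective h5)

theorem series_one {d : ℕ} {M : Type u} [Group M] (h : AbelianOrLinear d M) :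
    LinearSeries d 1 M := by
  rcases h with h | ⟨R, i, e, f, he, hf⟩
  · refine Or.inl ⟨M, { (inferInstance : Group M) with mul_comm := h }, MonoidHom.id M, ?_⟩
    show Subsingleton _
    refine ⟨fun x y => ?_⟩
    apply Subtype.ext
    have hx := x.2
    have hy := y.2
    rw [MonoidHom.mem_ker] at hx hy
    exact hx.trans hy.symm
  · refine Or.inr ⟨R, i, e, f, he, ?_⟩
    show Subsingleton _
    refine ⟨fun x y => ?_⟩
    apply Subtype.ext
    have hx := x.2
    have hy := y.2
    rw [MonoidHom.mem_ker] at hx hy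
    exact hf (hx.trans hy.symm)

theorem series_congr {d l : ℕ} {G : Type u} [Group G] {M N : Subgroup G} (h : N = M)
    (hM : LinearSeries d l M) : LinearSeries d l N := by
  subst h
  exact hM

theorem abelianOrLinear_mono {d d' : ℕ} (hd : d ≤ d') {M : Type u} [Group M]
    (h : AbelianOrLinear d M) : AbelianOrLinear d' M := by
  rcases h with h | ⟨R, i, e, f, he, hf⟩
  · exact Or.inl h
  · exact Or.inr ⟨R, i, e, f, he.trans hd, hf⟩

theorem series_two {d R : ℕ} {Q : Type u} [Group Q] [Finite Q] (M : Subgroup Q) [M.Normal]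
    (hM : AbelianOrLinear d M) (hi : M.index ≤ R) : LinearSeries (max d R) 2 Q := by
  obtain ⟨f, hf⟩ := regular_linear (Q ⧸ M)
  refine Or.inr ⟨ULift.{u} ℤ, inferInstance, Nat.card (Q ⧸ M), f.comp (QuotientGroup.mk' M), ?_, ?_⟩
  · exact le_trans hi (le_max_right _ _)
  · refine series_congr ?_ (series_one (abelianOrLinear_mono (le_max_left d R) hM))
    ext x
    rw [MonoidHom.mem_ker, MonoidHom.comp_apply]
    constructor
    · intro h
      have h1 : QuotientGroup.mk' M x = 1 := hf (by rw [h, map_one])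
      exact (QuotientGroup.eq_one_iff x).1 h1
    · intro h
      have h1 : QuotientGroup.mk' M x = 1 := (QuotientGroup.eq_one_iff x).2 h
      rw [h1, map_one]

/-- the dichotomy -/
theorem chief_core (k n d R : ℕ) (hn : 0 < n) : ∃ N : ℕ, ∀ (G : Type u) [Group G] [Finite G]
    (a : Fin k → G), Subgroup.closure (Set.range a) = ⊤ →
      (∀ L : Subgroup G, L.Normal → (∀ g : G, g ^ n ∈ L) → L.index ≤ R) →
      (∀ w : List (Fin k), w.length ≤ N → wp a w ^ n = 1) →
        (∀ g : G, g ^ n = 1) ∨ ∃ (K : Subgroup G) (_ : K.Normal) (M : Subgroup (G ⧸ K)),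
          (∃ q : G ⧸ K, q ^ n ≠ 1) ∧ MinimalNormal M ∧ (∀ q : G ⧸ K, q ^ n ∈ M) ∧ M.index ≤ R ∧
            ¬ AbelianOrLinear d M := by
  obtain ⟨N, B, hN⟩ := exponent_bound.{u} (max d R) n hn 2 k
  refine ⟨N, fun G _ _ a hgen hR hw => ?_⟩
  by_contra hcon
  push Not at hcon
  obtain ⟨⟨g₀, hg₀⟩, hcon⟩ := hcon
  -- a maximal `K`
  have hfin : Finite (Subgroup G) := inferInstance
  obtain ⟨K, hK, hmax⟩ : ∃ K : Subgroup G, (K.Normal ∧ ∃ g : G, g ^ n ∉ K) ∧
      ∀ K' : Subgroup G, (K'.Normal ∧ ∃ g : G, g ^ n ∉ K') → ¬ K < K' := by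
    have hne : {K : Subgroup G | K.Normal ∧ ∃ g : G, g ^ n ∉ K}.Nonempty := by
      refine ⟨⊥, inferInstance, g₀, ?_⟩
      rw [Subgroup.mem_bot]
      exact hg₀
    obtain ⟨K, hK⟩ := (Set.toFinite _).exists_maximal hne
    refine ⟨K, hK.1, fun K' hK' hlt => ?_⟩
    exact absurd (hK.2 hK' hlt.le) (not_le_of_gt hlt)
  obtain ⟨hKn, g₁, hg₁⟩ := hK
  have hq : ∃ q : G ⧸ K, q ^ n ≠ 1 := by
    refine ⟨(g₁ : G ⧸ K), fun h => hg₁ ?_⟩
    rw [← QuotientGroup.mk_pow] at h
    exact (QuotientGroup.eq_one_iff _).1 h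
  -- a minimal normal subgroup of the quotient
  obtain ⟨M, hM⟩ : ∃ M : Subgroup (G ⧸ K), MinimalNormal M := by
    have hne : {M : Subgroup (G ⧸ K) | M.Normal ∧ M ≠ ⊥}.Nonempty := by
      refine ⟨⊤, inferInstance, fun h => ?_⟩
      obtain ⟨q, hq⟩ := hq
      apply hq
      have : q ∈ (⊤ : Subgroup (G ⧸ K)) := Subgroup.mem_top q
      rw [h, Subgroup.mem_bot] at this
      rw [this, one_pow]
    obtain ⟨M, hM⟩ := (Set.toFinite _).exists_minimal hne
    refine ⟨M, hM.1.1, hM.1.2, fun L hL hLM => ?_⟩
    by_cases h : L = ⊥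
    · exact Or.inl h
    · exact Or.inr (le_antisymm hLM (hM.2 ⟨hL, h⟩ hLM))
  have hMn : M.Normal := hM.1
  have hcomap : ∀ g : G, g ^ n ∈ M.comap (QuotientGroup.mk' K) := by
    by_contra hc
    push Not at hc
    refine hmax (M.comap (QuotientGroup.mk' K)) ⟨inferInstance, hc⟩ ?_
    refine lt_of_le_of_ne ?_ ?_
    · intro x hx
      have : QuotientGroup.mk' K x = 1 := (QuotientGroup.eq_one_iff x).2 hx
      rw [Subgroup.mem_comap, this]
      exact one_mem _
    · intro h
      apply hM.2.1
      rw [eq_bot_iff]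
      intro q hq
      obtain ⟨x, rfl⟩ := QuotientGroup.mk'_surjective K q
      have : x ∈ M.comap (QuotientGroup.mk' K) := hq
      rw [← h] at this
      exact (QuotientGroup.eq_one_iff x).2 this
  have hMp : ∀ q : G ⧸ K, q ^ n ∈ M := by
    intro q
    obtain ⟨x, rfl⟩ := QuotientGroup.mk'_surjective K q
    have := hcomap x
    rw [Subgroup.mem_comap, map_pow] at this
    exact this
  have hidx : M.index ≤ R := by
    rw [← Subgroup.index_comap_of_surjective M (QuotientGroup.mk'_surjective K)]
    exact hR _ inferInstance hcomap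
  have hlin : AbelianOrLinear d M := by
    exact hcon K hKn M hq hM hMp hidx
  have hser := series_two M hlin hidx
  have hgen' : Subgroup.closure (Set.range fun i => QuotientGroup.mk' K (a i)) = ⊤ := by
    have h1 : (Set.range fun i => QuotientGroup.mk' K (a i)) =
        QuotientGroup.mk' K '' Set.range a := by
      rw [← Set.range_comp]
      rfl
    rw [h1, ← MonoidHom.map_closure, hgen, ← MonoidHom.range_eq_map]
    exact MonoidHom.range_eq_top.2 (QuotientGroup.mk'_surjective K)
  have hw' : ∀ w : List (Fin k), w.length ≤ N →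
      wp (fun i => QuotientGroup.mk' K (a i)) w ^ n = 1 := by
    intro w hwl
    have h1 : wp (fun i => QuotientGroup.mk' K (a i)) w = QuotientGroup.mk' K (wp a w) := by
      simp only [wp, map_list_prod, List.map_map]
      rfl
    rw [h1, ← map_pow, hw w hwl, map_one]
  obtain ⟨_, _, h3⟩ := hN (G ⧸ K) _ hgen' hser hw'
  obtain ⟨q, hq⟩ := hq
  exact hq (h3 q)

end Pool.Agent.Lib.MP_322c76_al
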