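import Pool.Agent.Lib.MP_322c76_al.Perfect

/-!
# The subgroup generated by the powers is perfect: form with the diameter

As `Pw_perfect`, with the hypothesis that every coset of `U` contains a word with at most `D`
letters, and `(wp a w) ^ n = 1` for all words `w` with at most `3 D + 1` letters.
-/

set_option autoImplicit false

namespace Pool.Agent.Lib.MP_322c76_al

universe u

/-- **The subgroup generated by the `n`-th powers is perfect**, if `D` bounds the diameter. -/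
theorem Pw_perfect_diam {G : Type u} [Group G] {ι : Type u} (a : ι → G) (n D : ℕ)
    (hgen : Subgroup.closure (Set.range a) = ⊤)
    (hrep : ∀ g : G, ∃ w : List ι, w.length ≤ D ∧ (wp a w)⁻¹ * g ∈ Pw n G)
    (hw : ∀ w : List ι, w.length ≤ 3 * D + 1 → wp a w ^ n = 1) : ⁅Pw n G, Pw n G⁆ = Pw n G := by
  have hU := Pw_normal n G
  have hrep' : ∀ g : G, ∃ w : List ι, w.length < D + 1 ∧ (wp a w)⁻¹ * g ∈ Pw n G := fun g => by
    obtain ⟨w, h1, h2⟩ := hrep g
    exact ⟨w, Nat.lt_succ_of_le h1, h2⟩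
  have hloops := loops_gen a hgen (Pw n G) hU (D + 1) (Nat.succ_pos D) hrep'
  have hD : (⁅Pw n G, Pw n G⁆).Normal := Subgroup.commutator_normal _ _
  refine le_antisymm (Subgroup.commutator_le_left _ _) ?_
  have key : ∀ g : G, g ^ n ∈ ⁅Pw n G, Pw n G⁆ := by
    intro g
    obtain ⟨w, hwl, hwU⟩ := hrep g
    let π := QuotientGroup.mk' ⁅Pw n G, Pw n G⁆
    have hV : ((Pw n G).map π).Normal := hU.map π (QuotientGroup.mk'_surjective _)
    have hc : ∀ x ∈ (Pw n G).map π, ∀ y ∈ (Pw n G).map π, x * y = y * x := by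
      rintro _ ⟨x, hx, rfl⟩ _ ⟨y, hy, rfl⟩
      rw [← map_mul, ← map_mul]
      apply QuotientGroup.eq.2
      have h1 := Subgroup.commutator_mem_commutator (inv_mem hy) (inv_mem hx)
      have h1' : y⁻¹ * x⁻¹ * (y⁻¹)⁻¹ * (x⁻¹)⁻¹ ∈ ⁅Pw n G, Pw n G⁆ := h1
      have e : y⁻¹ * x⁻¹ * (y⁻¹)⁻¹ * (x⁻¹)⁻¹ = (x * y)⁻¹ * (y * x) := by group
      rwa [e] at h1'
    have hu : π ((wp a w)⁻¹ * g) ∈ Subgroup.closure
        (π '' {g | g ∈ Pw n G ∧ ∃ w : List ι, w.length < 2 * (D + 1) ∧ wp a w = g}) := by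
      rw [← MonoidHom.map_closure]
      exact ⟨_, hloops hwU, rfl⟩
    have ht : π (wp a w) ^ n = 1 := by
      rw [← map_pow, hw w (by omega), map_one]
    have hφ := (phi_closure hV hc (π (wp a w)) n _ (by
      rintro _ ⟨x, ⟨hx, v, hv, rfl⟩, rfl⟩
      refine ⟨⟨_, hx, rfl⟩, ?_⟩
      have h1 : (π (wp a w) * π (wp a v)) ^ n = 1 := by
        rw [← map_mul, ← map_pow, ← wp_append, hw (w ++ v) (by rw [List.length_append]; omega), map_one]
      rw [phi_pow, ht, one_mul] at h1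
      exact h1) hu).2
    have h2 : π g ^ n = 1 := by
      have e : π g = π (wp a w) * π ((wp a w)⁻¹ * g) := by rw [← map_mul, mul_inv_cancel_left]
      rw [e, phi_pow, ht, hφ, one_mul]
    rw [← map_pow] at h2
    exact (QuotientGroup.eq_one_iff _).1 h2
  unfold Pw at key ⊢
  rw [Subgroup.closure_le]
  rintro _ ⟨g, rfl⟩
  exact key g

end Pool.Agent.Lib.MP_322c76_al
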