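import Mathlib

/-!
# Finitely generated linear groups of finite exponent over an algebraically closed field
-/

open Module

namespace Pool.Agent.Lib.MP_322c76_al

/-- Burnside's theorem on irreducible sets of linear maps -/
theorem adjoin_top {K V : Type*} [Field K] [IsAlgClosed K] [AddCommGroup V] [Module K V]
    [FiniteDimensional K V] [Nontrivial V] (S : Set (Module.End K V))
    (hirr : ∀ W : Submodule K V, (∀ f ∈ S, ∀ w ∈ W, f w ∈ W) → W = ⊥ ∨ W = ⊤) :
    Algebra.adjoin K S = ⊤ := by
  set A := Algebra.adjoin K S with hA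
  have hsimple : IsSimpleModule A V := by
    refine { toIsSimpleOrder := ?_ }
    refine { exists_pair_ne := ⟨⊥, ⊤, bot_ne_top⟩, eq_bot_or_eq_top := fun W => ?_ }
    let W' : Submodule K V :=
      { W.toAddSubgroup with
        smul_mem' := fun c x hx => by
          have h1 : (algebraMap K A c) • x = c • x := by
            rfl
          rw [← h1]
          exact W.smul_mem _ hx }
    rcases hirr W' (fun f hf w hw => W.smul_mem (⟨f, Algebra.subset_adjoin hf⟩ : A) hw) with h | h
    · left
      ext x
      have : x ∈ W' ↔ x ∈ (⊥ : Submodule K V) := by rw [h]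
      simpa [W'] using this
    · right
      ext x
      have : x ∈ W' ↔ x ∈ (⊤ : Submodule K V) := by rw [h]
      simpa [W'] using this
  -- Schur
  have hschur : ∀ φ : Module.End A V, ∃ c : K, ∀ x, φ x = c • x := by
    intro φ
    let φ' : Module.End K V :=
      { toFun := φ
        map_add' := φ.map_add
        map_smul' := fun c x => by
          have h1 : ∀ y : V, (algebraMap K A c) • y = c • y := fun y => rfl
          rw [RingHom.id_apply, ← h1, ← h1, φ.map_smul] }
    obtain ⟨μ, hμ⟩ := Module.End.exists_eigenvalue φ'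
    obtain ⟨v, hv⟩ := hμ.exists_hasEigenvector
    refine ⟨μ, ?_⟩
    let ψ : Module.End A V :=
      { toFun := fun x => φ x - μ • x
        map_add' := fun x y => by
          rw [φ.map_add, smul_add]; abel
        map_smul' := fun a x => by
          rw [RingHom.id_apply, φ.map_smul, smul_sub]
          congr 1
          change μ • ((a : Module.End K V) x) = (a : Module.End K V) (μ • x)
          rw [map_smul] }
    have h2 : ψ v = 0 := by
      have := hv.apply_eq_smul
      change φ v - μ • v = 0
      rw [sub_eq_zero]
      exact this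
    rcases LinearMap.bijective_or_eq_zero ψ with h | h
    · exact absurd (h.1 (h2.trans (map_zero ψ).symm)) hv.2
    · intro x
      have h3 : ψ x = 0 := by rw [h]; rfl
      exact sub_eq_zero.1 h3
  rw [eq_top_iff]
  intro T _
  let f : Module.End (Module.End A V) V :=
    { toFun := T
      map_add' := T.map_add
      map_smul' := fun φ x => by
        obtain ⟨c, hc⟩ := hschur φ
        rw [RingHom.id_apply]
        change T (φ x) = φ (T x)
        rw [hc, hc, map_smul] }
  obtain ⟨s, hs⟩ := (Module.finite_def.1 (inferInstance : Module.Finite K V))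
  obtain ⟨r, hr⟩ := jacobson_density (R := A) f s
  have h4 : T = (r : Module.End K V) := by
    refine LinearMap.ext_on hs fun m hm => ?_
    exact hr m hm
  rw [h4]
  exact r.2

theorem finite_traces (K : Type*) [Field K] [IsAlgClosed K] (d n : ℕ) (hn : 0 < n) :
    {t : K | ∃ M : Matrix (Fin d) (Fin d) K, M ^ n = 1 ∧ M.trace = t}.Finite := by
  classical
  set R : Finset K := (Polynomial.nthRoots n (1 : K)).toFinset with hR
  have hfin : {t : K | ∃ s : Fin d → R, ∑ i, (s i : K) = t}.Finite := by
    have : {t : K | ∃ s : Fin d → R, ∑ i, (s i : K) = t} =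
        Set.range (fun s : Fin d → R => ∑ i, (s i : K)) := by
      ext t; simp
    rw [this]
    exact Set.finite_range _
  refine hfin.subset ?_
  rintro t ⟨M, hM, rfl⟩
  have hroot : ∀ μ ∈ M.charpoly.roots, μ ∈ R := by
    intro μ hμ
    rw [hR, Multiset.mem_toFinset, Polynomial.mem_nthRoots hn]
    have h1 : M.charpoly.IsRoot μ := Polynomial.isRoot_of_mem_roots hμ
    have h2 : (Matrix.toLin' M).charpoly.IsRoot μ := by
      rwa [Matrix.charpoly_toLin']
    have h3 := (Module.End.hasEigenvalue_iff_isRoot_charpoly _ _).2 h2
    obtain ⟨v, hv⟩ := h3.exists_hasEigenvector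
    have h4 := hv.pow_apply n
    have h5 : (Matrix.toLin' M) ^ n = 1 := by
      rw [← Matrix.toLin'_pow, hM, Matrix.toLin'_one]
      rfl
    rw [h5] at h4
    have h6 : (μ ^ n - 1) • v = 0 := by
      rw [sub_smul, one_smul, ← h4]
      simp
    rcases smul_eq_zero.1 h6 with h | h
    · exact sub_eq_zero.1 h
    · exact absurd h hv.2
  have hcard : M.charpoly.roots.card = d := by
    have h1 := (IsAlgClosed.splits M.charpoly).natDegree_eq_card_roots
    rw [← h1, Matrix.charpoly_natDegree_eq_dim, Fintype.card_fin]
  have hlist : ∃ l : List K, (l : Multiset K) = M.charpoly.roots := Quot.exists_rep _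
  obtain ⟨l, hl⟩ := hlist
  have hlen : l.length = d := by
    rw [← hcard, ← hl]; simp
  subst hlen
  refine ⟨fun i => ⟨l.get i, hroot _ ?_⟩, ?_⟩
  · rw [← hl]
    exact Multiset.mem_coe.2 (List.get_mem l i)
  · have hsum : M.charpoly.roots.sum = l.sum := by rw [← hl, Multiset.sum_coe]
    rw [Matrix.trace_eq_sum_roots_charpoly, hsum]
    simp [Fin.sum_univ_getElem]

end Pool.Agent.Lib.MP_322c76_al
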