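import Mathlib

/-!
# Kernels of finite index
-/

namespace Pool.Agent.Lib.MP_322c76_al

theorem ker_units {Γ M : Type*} [Group Γ] [Monoid M] (f : Γ →* M) :
    f.toHomUnits.ker = f.ker := by
  ext x
  rw [MonoidHom.mem_ker, MonoidHom.mem_ker, Units.ext_iff]
  rfl

/-- finite range, so the kernel has finite index -/
theorem fi_of_finite {Γ M : Type*} [Group Γ] [Monoid M] (f : Γ →* M)
    (h : (Set.range f).Finite) : f.ker.FiniteIndex := by
  have h1 : Finite (Γ ⧸ f.toHomUnits.ker) := by
    have : Finite (Set.range f) := h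
    refine Finite.of_injective (β := Set.range f)
      (fun q => ⟨((QuotientGroup.kerLift f.toHomUnits q : Mˣ) : M), ?_⟩) ?_
    · induction q using QuotientGroup.induction_on with
      | H g => exact ⟨g, rfl⟩
    · intro a b hab
      apply QuotientGroup.kerLift_injective f.toHomUnits
      rw [Units.ext_iff]
      exact congrArg Subtype.val hab
  have h2 : f.toHomUnits.ker.FiniteIndex := Subgroup.finiteIndex_of_finite_quotient
  rwa [ker_units] at h2

/-- commutative range of finite exponent -/
theorem fi_of_comm {Γ M : Type*} [Group Γ] [Group.FG Γ] [Monoid M] (f : Γ →* M) {n : ℕ}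
    (hn : 0 < n) (hc : ∀ x y, f x * f y = f y * f x) (he : ∀ x, f x ^ n = 1) :
    f.ker.FiniteIndex := by
  have hinj := QuotientGroup.kerLift_injective f.toHomUnits
  have h0 : ∀ g : Γ, QuotientGroup.kerLift f.toHomUnits (g : Γ ⧸ f.toHomUnits.ker) =
      f.toHomUnits g := fun g => rfl
  let inst : CommGroup (Γ ⧸ f.toHomUnits.ker) :=
    { (inferInstance : Group (Γ ⧸ f.toHomUnits.ker)) with
      mul_comm := fun a b => by
        induction a using QuotientGroup.induction_on with
        | H a =>
          induction b using QuotientGroup.induction_on with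
          | H b =>
            apply hinj
            rw [map_mul, map_mul, h0, h0, Units.ext_iff]
            exact hc a b }
  have h1 : Finite (Γ ⧸ f.toHomUnits.ker) := by
    refine CommGroup.finite_of_fg_isMulTorsion (G := Γ ⧸ f.toHomUnits.ker) fun q => ?_
    induction q using QuotientGroup.induction_on with
    | H g =>
      rw [isOfFinOrder_iff_pow_eq_one]
      refine ⟨n, hn, ?_⟩
      apply hinj
      rw [map_pow, map_one, h0, Units.ext_iff]
      exact he g
  have h2 : f.toHomUnits.ker.FiniteIndex := Subgroup.finiteIndex_of_finite_quotient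
  rwa [ker_units] at h2

/-- transitivity -/
theorem fi_of_restrict {Γ M : Type*} [Group Γ] [Monoid M] (f : Γ →* M) (N : Subgroup Γ)
    [N.FiniteIndex] (h : (f.comp N.subtype).ker.FiniteIndex) : f.ker.FiniteIndex := by
  have h1 : (f.comp N.subtype).ker = f.ker.subgroupOf N := by
    ext x
    rw [MonoidHom.mem_ker, Subgroup.mem_subgroupOf, MonoidHom.mem_ker]
    rfl
  rw [h1] at h
  have h2 : (f.ker ⊓ N).FiniteIndex := by
    refine ⟨?_⟩
    rw [← Subgroup.relIndex_mul_index (inf_le_right : f.ker ⊓ N ≤ N)]
    refine mul_ne_zero ?_ Subgroup.FiniteIndex.index_ne_zero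
    rw [Subgroup.inf_relIndex_right]
    exact h.index_ne_zero
  exact Subgroup.finiteIndex_of_le (inf_le_left : f.ker ⊓ N ≤ f.ker)

end Pool.Agent.Lib.MP_322c76_al
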