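import Pool.Agent.Lib.MP_322c76_al.Field
import Pool.Agent.Lib.MP_322c76_al.Groups

/-!
# Finitely generated linear groups of finite exponent are finite (algebraically closed fields)
-/

open Module

namespace Pool.Agent.Lib.MP_322c76_al

/-- the irreducible case -/
theorem finite_irred {K V Γ : Type*} [Field K] [IsAlgClosed K] [AddCommGroup V] [Module K V]
    [FiniteDimensional K V] [Nontrivial V] [Group Γ] (ρ : Γ →* Module.End K V) {n : ℕ}
    (hn : 0 < n) (he : ∀ x, ρ x ^ n = 1)
    (hirr : ∀ W : Submodule K V, (∀ g, ∀ w ∈ W, ρ g w ∈ W) → W = ⊥ ∨ W = ⊤) :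
    (Set.range ρ).Finite := by
  classical
  have h1 : Algebra.adjoin K (Set.range ρ) = ⊤ := adjoin_top _ fun W hW =>
    hirr W fun g w hw => hW _ ⟨g, rfl⟩ w hw
  have h2 : Submodule.span K (Set.range ρ) = ⊤ := by
    have h3 : Subalgebra.toSubmodule (Algebra.adjoin K (Set.range ρ)) =
        Submodule.span K (Submonoid.closure (Set.range ρ)) := Algebra.adjoin_eq_span K _
    have h4 : Submonoid.closure (Set.range ρ) = MonoidHom.mrange ρ := by
      rw [← MonoidHom.coe_mrange, Submonoid.closure_eq]
    rw [h4, h1, MonoidHom.coe_mrange] at h3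
    rw [← h3]
    rfl
  -- a finite spanning subset
  obtain ⟨S, hS, hSfin, hspan⟩ : ∃ S ⊆ Set.range ρ, S.Finite ∧ Submodule.span K S = ⊤ := by
    obtain ⟨b, hb1, hb2, hb3⟩ := exists_linearIndependent K (Set.range ρ)
    exact ⟨b, hb1, hb3.setFinite, by rw [hb2, h2]⟩
  set d := Module.finrank K V with hd
  let bas := Module.finBasis K V
  let T : Set K := {t : K | ∃ M : Matrix (Fin d) (Fin d) K, M ^ n = 1 ∧ M.trace = t}
  have hT : T.Finite := finite_traces K d n hn
  have htr : ∀ g, LinearMap.trace K V (ρ g) ∈ T := by
    intro g
    refine ⟨LinearMap.toMatrix bas bas (ρ g), ?_, ?_⟩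
    · have h5 : LinearMap.toMatrix bas bas (ρ g ^ n) = (LinearMap.toMatrix bas bas (ρ g)) ^ n :=
        map_pow (LinearMap.toMatrixAlgEquiv bas) (ρ g) n
      rw [← h5, he]
      exact LinearMap.toMatrix_one bas
    · rw [LinearMap.trace_eq_matrix_trace K bas]
  have : Finite S := hSfin
  have : Finite T := hT
  let Φ : Set.range ρ → (S → T) := fun x s =>
    ⟨LinearMap.trace K V ((x : Module.End K V) * (s : Module.End K V)), by
      obtain ⟨g, hg⟩ := x.2
      obtain ⟨g', hg'⟩ := hS s.2
      rw [← hg, ← hg', ← map_mul]
      exact htr _⟩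
  have hinj : Function.Injective Φ := by
    intro x y hxy
    have h6 : ∀ s ∈ S, LinearMap.trace K V (((x : Module.End K V) - y) * s) = 0 := by
      intro s hs
      have := congrFun hxy ⟨s, hs⟩
      have h7 : LinearMap.trace K V ((x : Module.End K V) * s) =
          LinearMap.trace K V ((y : Module.End K V) * s) := congrArg Subtype.val this
      rw [sub_mul, map_sub, h7, sub_self]
    have h8 : ∀ z : Module.End K V, LinearMap.trace K V (((x : Module.End K V) - y) * z) = 0 := by
      intro z
      have hz : z ∈ Submodule.span K S := by rw [hspan]; trivial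
      induction hz using Submodule.span_induction with
      | mem z hz => exact h6 z hz
      | zero => simp
      | add a b _ _ ha hb => rw [mul_add, map_add, ha, hb, add_zero]
      | smul c a _ ha => rw [mul_smul_comm, map_smul, ha, smul_zero]
    have h9 : (x : Module.End K V) - y = 0 := by
      apply (LinearMap.toMatrix bas bas).injective
      rw [map_zero]
      apply Matrix.ext_iff_trace_mul_right.2
      intro N
      have h10 := h8 ((LinearMap.toMatrix bas bas).symm N)
      rw [LinearMap.trace_eq_matrix_trace K bas, LinearMap.toMatrix_mul] at h10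
      simpa using h10
    exact Subtype.ext (sub_eq_zero.1 h9)
  have : Finite (Set.range ρ) := Finite.of_injective Φ hinj
  exact Set.toFinite _

theorem fi_field {K : Type*} [Field K] [IsAlgClosed K] {Γ : Type*} [Group Γ] [Group.FG Γ] {n : ℕ}
    (hn : 0 < n) : ∀ (m : ℕ) (V : Type*) [AddCommGroup V] [Module K V] [FiniteDimensional K V]
      (ρ : Γ →* Module.End K V), Module.finrank K V ≤ m → (∀ x, ρ x ^ n = 1) →
        ρ.ker.FiniteIndex := by
  intro m
  induction m with
  | zero =>
    intro V _ _ _ ρ hm _
    have h1 : Module.finrank K V = 0 := by omega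
    have h2 : Subsingleton V := Module.finrank_zero_iff.1 h1
    have h3 : ρ.ker = ⊤ := by
      rw [eq_top_iff]
      intro x _
      rw [MonoidHom.mem_ker]
      exact Subsingleton.elim _ _
    rw [h3]
    infer_instance
  | succ m ih =>
    intro V _ _ _ ρ hm he
    by_cases hirr : ∀ W : Submodule K V, (∀ g, ∀ w ∈ W, ρ g w ∈ W) → W = ⊥ ∨ W = ⊤
    · rcases subsingleton_or_nontrivial V with hV | hV
      · have h3 : ρ.ker = ⊤ := by
          rw [eq_top_iff]
          intro x _
          rw [MonoidHom.mem_ker]
          exact Subsingleton.elim _ _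
        rw [h3]
        infer_instance
      · exact fi_of_finite ρ (finite_irred ρ hn he hirr)
    · push Not at hirr
      obtain ⟨W, hW, hW1, hW2⟩ := hirr
      let ρW : Γ →* Module.End K W :=
        { toFun := fun g => (ρ g).restrict (hW g)
          map_one' := by
            ext w
            simp [LinearMap.restrict_apply]
          map_mul' := fun a b => by
            ext w
            simp [LinearMap.restrict_apply] }
      let ρQ : Γ →* Module.End K (V ⧸ W) :=
        { toFun := fun g => W.mapQ W (ρ g) (hW g)
          map_one' := by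
            ext w
            simp
          map_mul' := fun a b => by
            ext w
            simp }
      have hfW : Module.finrank K W < Module.finrank K V := Submodule.finrank_lt hW2
      have hfQ := Submodule.finrank_quotient_add_finrank W
      have hW0 : 0 < Module.finrank K W := by
        have : Nontrivial W := Submodule.nontrivial_iff_ne_bot.2 hW1
        exact Module.finrank_pos
      have h1 : ρW.ker.FiniteIndex := by
        refine ih W ρW (by omega) fun x => ?_
        rw [← map_pow]
        have h2 : ρ (x ^ n) = 1 := by rw [map_pow, he]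
        ext w
        change ((ρ (x ^ n) w : V)) = w
        rw [h2]
        rfl
      have h2 : ρQ.ker.FiniteIndex := by
        refine ih (V ⧸ W) ρQ (by omega) fun x => ?_
        rw [← map_pow]
        have h2 : ρ (x ^ n) = 1 := by rw [map_pow, he]
        ext w
        change Submodule.Quotient.mk (ρ (x ^ n) w) = Submodule.Quotient.mk w
        rw [h2]
        rfl
      have h3 : (ρW.ker ⊓ ρQ.ker).FiniteIndex := inferInstance
      refine fi_of_restrict ρ (ρW.ker ⊓ ρQ.ker) ?_
      refine fi_of_comm _ hn (fun x y => ?_) fun x => ?_
      · have key : ∀ a b : Γ, a ∈ ρW.ker → b ∈ ρQ.ker → (ρ a - 1) * (ρ b - 1) = 0 := by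
          intro a b ha hb
          ext v
          have h4 : ρ b v - v ∈ W := by
            have h5 : (ρQ b) (Submodule.Quotient.mk v) = Submodule.Quotient.mk v := by
              rw [(MonoidHom.mem_ker).1 hb]
              rfl
            have h6 : (Submodule.Quotient.mk (ρ b v) : V ⧸ W) = Submodule.Quotient.mk v := h5
            exact (Submodule.Quotient.eq W).1 h6
          have h7 : ∀ w ∈ W, ρ a w = w := by
            intro w hw
            have h8 : ρW a ⟨w, hw⟩ = ⟨w, hw⟩ := by
              rw [(MonoidHom.mem_ker).1 ha]
              rfl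
            exact congrArg Subtype.val h8
          change ρ a (ρ b v - v) - (ρ b v - v) = 0
          rw [h7 _ h4, sub_self]
        have hx := x.2
        have hy := y.2
        rw [Subgroup.mem_inf] at hx hy
        have h4 := key x y hx.1 hy.2
        have h5 := key y x hy.1 hx.2
        change ρ x * ρ y = ρ y * ρ x
        have h6 : ρ x * ρ y = ρ x + ρ y - 1 := by
          have : (ρ x - 1) * (ρ y - 1) = ρ x * ρ y - ρ x - ρ y + 1 := by noncomm_ring
          rw [this] at h4
          rw [← sub_eq_zero, ← h4]
          abel
        have h7 : ρ y * ρ x = ρ x + ρ y - 1 := by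
          have : (ρ y - 1) * (ρ x - 1) = ρ y * ρ x - ρ y - ρ x + 1 := by noncomm_ring
          rw [this] at h5
          rw [← sub_eq_zero, ← h5]
          abel
        rw [h6, h7]
      · exact he _

end Pool.Agent.Lib.MP_322c76_al
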