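import Pool.Agent.Lib.MP_322c76_al.Noeth

/-!
# One linear layer: the Hilbert basis theorem
-/

open MvPolynomial

namespace Pool.Agent.Lib.MP_322c76_al

/-- the product of a positive word -/
def wp {M : Type*} [Monoid M] {ι : Type*} (a : ι → M) (w : List ι) : M := (w.map a).prod

theorem wp_nil {M : Type*} [Monoid M] {ι : Type*} (a : ι → M) : wp a [] = 1 := rfl

theorem wp_append {M : Type*} [Monoid M] {ι : Type*} (a : ι → M) (v w : List ι) :
    wp a (v ++ w) = wp a v * wp a w := by
  simp [wp]

theorem wp_single {M : Type*} [Monoid M] {ι : Type*} (a : ι → M) (i : ι) : wp a [i] = a i := by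
  simp [wp]

theorem map_wp {M M' : Type*} [Monoid M] [Monoid M'] {ι : Type*} (f : M →* M') (a : ι → M)
    (w : List ι) : f (wp a w) = wp (fun i => f (a i)) w := by
  unfold wp
  rw [map_list_prod, List.map_map]
  rfl

theorem wp_flatten {M : Type*} [Monoid M] {ι : Type*} (a : ι → M) (n : ℕ) (w : List ι) :
    wp a (List.replicate n w).flatten = wp a w ^ n := by
  induction n with
  | zero => simp [wp]
  | succ n ih => rw [List.replicate_succ, List.flatten_cons, wp_append, ih, pow_succ']

/-- powers of words give inverses -/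
theorem closure_word {G : Type*} [Group G] {ι : Type*} (a : ι → G) {n : ℕ} (hn : 0 < n)
    (h : ∀ w : List ι, wp a w ^ n = 1) {g : G} (hg : g ∈ Subgroup.closure (Set.range a)) :
    ∃ w, wp a w = g := by
  induction hg using Subgroup.closure_induction with
  | mem x hx =>
    obtain ⟨i, rfl⟩ := hx
    exact ⟨[i], wp_single a i⟩
  | one => exact ⟨[], rfl⟩
  | mul x y _ _ hx hy =>
    obtain ⟨v, rfl⟩ := hx
    obtain ⟨w, rfl⟩ := hy
    exact ⟨v ++ w, wp_append a v w⟩
  | inv x _ hx =>
    obtain ⟨v, rfl⟩ := hx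
    refine ⟨(List.replicate (n - 1) v).flatten, ?_⟩
    rw [wp_flatten]
    apply eq_inv_of_mul_eq_one_left
    rw [← pow_succ, Nat.sub_add_cancel hn]
    exact h v

section universal

variable (k n d : ℕ)

/-- entries of the matrices and of their inverses -/
abbrev Var := (Fin k × Fin d × Fin d) ⊕ (Fin k × Fin d × Fin d)

/-- generic matrices -/
noncomputable def XM (m : Fin k) : Matrix (Fin d) (Fin d) (MvPolynomial (Var k d) ℤ) :=
  fun i j => X (Sum.inl (m, i, j))

/-- their inverses -/
noncomputable def YM (m : Fin k) : Matrix (Fin d) (Fin d) (MvPolynomial (Var k d) ℤ) :=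
  fun i j => X (Sum.inr (m, i, j))

/-- the ideal of the relations up to length `N` -/
noncomputable def relI (N : ℕ) : Ideal (MvPolynomial (Var k d) ℤ) :=
  Ideal.span ({p | ∃ m i j, p = (XM k d m * YM k d m - 1) i j} ∪
    {p | ∃ m i j, p = (YM k d m * XM k d m - 1) i j} ∪
    {p | ∃ w : List (Fin k), w.length ≤ N ∧ ∃ i j, p = (wp (XM k d) w ^ n - 1) i j})

theorem relI_mono : Monotone (relI k n d) := by
  intro N N' h
  refine Ideal.span_mono ?_
  refine Set.union_subset_union_right _ ?_
  rintro p ⟨w, hw, hp⟩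
  exact ⟨w, hw.trans h, hp⟩

theorem relI_stab : ∃ N, ∀ m, relI k n d m ≤ relI k n d N := by
  obtain ⟨N, hN⟩ := monotone_stabilizes_iff_noetherian.2
    (inferInstance : IsNoetherian (MvPolynomial (Var k d) ℤ) (MvPolynomial (Var k d) ℤ))
    ⟨relI k n d, relI_mono k n d⟩
  refine ⟨N, fun m => ?_⟩
  rcases le_total m N with h | h
  · exact relI_mono k n d h
  · exact (hN m h).ge

variable (N : ℕ)

/-- the generators of the universal group -/
noncomputable def uu (m : Fin k) :
    (Matrix (Fin d) (Fin d) (MvPolynomial (Var k d) ℤ ⧸ relI k n d N))ˣ where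
  val := (Ideal.Quotient.mk (relI k n d N)).mapMatrix (XM k d m)
  inv := (Ideal.Quotient.mk (relI k n d N)).mapMatrix (YM k d m)
  val_inv := by
    rw [← map_mul, ← sub_eq_zero, ← map_one (Ideal.Quotient.mk (relI k n d N)).mapMatrix, ← map_sub]
    ext i j
    rw [RingHom.mapMatrix_apply, Matrix.map_apply, Matrix.zero_apply,
      Ideal.Quotient.eq_zero_iff_mem]
    exact Ideal.subset_span (Or.inl (Or.inl ⟨m, i, j, rfl⟩))
  inv_val := by
    rw [← map_mul, ← sub_eq_zero, ← map_one (Ideal.Quotient.mk (relI k n d N)).mapMatrix, ← map_sub]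
    ext i j
    rw [RingHom.mapMatrix_apply, Matrix.map_apply, Matrix.zero_apply,
      Ideal.Quotient.eq_zero_iff_mem]
    exact Ideal.subset_span (Or.inl (Or.inr ⟨m, i, j, rfl⟩))

theorem uu_word {N : ℕ} (hN : ∀ m, relI k n d m ≤ relI k n d N) (w : List (Fin k)) :
    wp (uu k n d N) w ^ n = 1 := by
  rw [Units.ext_iff, Units.val_pow_eq_pow_val]
  have h1 : ((wp (uu k n d N) w : (Matrix (Fin d) (Fin d) (MvPolynomial (Var k d) ℤ ⧸
      relI k n d N))ˣ) : Matrix (Fin d) (Fin d) (MvPolynomial (Var k d) ℤ ⧸ relI k n d N)) =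
      (Ideal.Quotient.mk (relI k n d N)).mapMatrix (wp (XM k d) w) := by
    have h2 := map_wp (Units.coeHom (Matrix (Fin d) (Fin d) (MvPolynomial (Var k d) ℤ ⧸
      relI k n d N))) (uu k n d N) w
    have h3 := map_wp ((Ideal.Quotient.mk (relI k n d N)).mapMatrix :
      Matrix (Fin d) (Fin d) (MvPolynomial (Var k d) ℤ) →+* _).toMonoidHom (XM k d) w
    exact h2.trans h3.symm
  rw [h1, ← map_pow, ← sub_eq_zero, Units.val_one,
    ← map_one (Ideal.Quotient.mk (relI k n d N)).mapMatrix, ← map_sub]
  ext i j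
  rw [RingHom.mapMatrix_apply, Matrix.map_apply, Matrix.zero_apply,
    Ideal.Quotient.eq_zero_iff_mem]
  exact hN w.length (Ideal.subset_span (Or.inr ⟨w, le_rfl, i, j, rfl⟩))

theorem uu_finite {n : ℕ} (hn : 0 < n) {N : ℕ} (hN : ∀ m, relI k n d m ≤ relI k n d N) :
    Finite (Subgroup.closure (Set.range (uu k n d N))) := by
  set Γ := Subgroup.closure (Set.range (uu k n d N)) with hΓ
  have hfg : Group.FG Γ := by
    rw [Group.fg_iff_subgroup_fg, Subgroup.fg_iff]
    exact ⟨_, hΓ.symm, Set.finite_range _⟩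
  let ρ : Γ →* Matrix (Fin d) (Fin d) (MvPolynomial (Var k d) ℤ ⧸ relI k n d N) :=
    (Units.coeHom _).comp Γ.subtype
  have h1 : ρ.ker.FiniteIndex := by
    refine fi_noeth ρ hn fun x => ?_
    obtain ⟨w, hw⟩ := closure_word (uu k n d N) hn (uu_word k n d hN) x.2
    change (((x : (Matrix (Fin d) (Fin d) (MvPolynomial (Var k d) ℤ ⧸ relI k n d N))ˣ)) :
      Matrix (Fin d) (Fin d) (MvPolynomial (Var k d) ℤ ⧸ relI k n d N)) ^ n = 1
    rw [← hw, ← Units.val_pow_eq_pow_val, uu_word k n d hN, Units.val_one]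
  have h2 : ρ.ker = ⊥ := by
    rw [MonoidHom.ker_eq_bot_iff]
    exact Units.val_injective.comp Subtype.val_injective
  rw [h2] at h1
  have h3 := h1.index_ne_zero
  rw [Subgroup.index_bot] at h3
  exact Nat.finite_of_card_ne_zero h3

end universal

/-- **One layer.** -/
theorem layer (k n d : ℕ) (hn : 0 < n) : ∃ N B : ℕ, ∀ (R : Type*) [CommRing R] (G : Type*)
    [Group G] (a : Fin k → G) (f : G →* (Matrix (Fin d) (Fin d) R)ˣ),
      Subgroup.closure (Set.range a) = ⊤ → (∀ w : List (Fin k), w.length ≤ N → wp a w ^ n = 1) →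
        f.ker.FiniteIndex ∧ f.ker.index ≤ B := by
  obtain ⟨N, hN⟩ := relI_stab k n d
  have hfin := uu_finite k d hn hN
  refine ⟨N, Nat.card (Subgroup.closure (Set.range (uu k n d N))), ?_⟩
  intro R _ G _ a f hgen hw
  -- evaluation
  let ev : MvPolynomial (Var k d) ℤ →+* R := MvPolynomial.eval₂Hom (Int.castRingHom R)
    (Sum.elim (fun q => (f (a q.1) : Matrix (Fin d) (Fin d) R) q.2.1 q.2.2)
      (fun q => ((f (a q.1))⁻¹ : (Matrix (Fin d) (Fin d) R)ˣ).val q.2.1 q.2.2))
  have hX : ∀ m, ev.mapMatrix (XM k d m) = (f (a m) : Matrix (Fin d) (Fin d) R) := by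
    intro m
    ext i j
    simp [ev, XM]
  have hY : ∀ m, ev.mapMatrix (YM k d m) =
      ((f (a m))⁻¹ : (Matrix (Fin d) (Fin d) R)ˣ).val := by
    intro m
    ext i j
    simp [ev, YM]
  have hker : ∀ p ∈ relI k n d N, ev p = 0 := by
    intro p hp
    have h1 : relI k n d N ≤ RingHom.ker ev := by
      refine Ideal.span_le.2 ?_
      rintro p ((⟨m, i, j, rfl⟩ | ⟨m, i, j, rfl⟩) | ⟨w, hwl, i, j, rfl⟩)
      · change ev ((XM k d m * YM k d m - 1) i j) = 0
        have h2 : ev.mapMatrix (XM k d m * YM k d m - 1) = 0 := by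
          rw [map_sub, map_mul, hX, hY, map_one, Units.mul_inv, sub_self]
        exact congrFun (congrFun h2 i) j
      · change ev ((YM k d m * XM k d m - 1) i j) = 0
        have h2 : ev.mapMatrix (YM k d m * XM k d m - 1) = 0 := by
          rw [map_sub, map_mul, hX, hY, map_one, Units.inv_mul, sub_self]
        exact congrFun (congrFun h2 i) j
      · change ev ((wp (XM k d) w ^ n - 1) i j) = 0
        have h2 : ev.mapMatrix (wp (XM k d) w ^ n - 1) = 0 := by
          rw [map_sub, map_pow, map_one]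
          have h3 := map_wp (ev.mapMatrix : Matrix (Fin d) (Fin d) _ →+* _).toMonoidHom
            (XM k d) w
          have h4 : ev.mapMatrix (wp (XM k d) w) = wp (fun m => (f (a m) :
              Matrix (Fin d) (Fin d) R)) w := by
            refine h3.trans ?_
            congr 1
            funext m
            exact hX m
          have h5 := map_wp (Units.coeHom (Matrix (Fin d) (Fin d) R)) (fun m => f (a m)) w
          have h6 := map_wp f a w
          rw [h4]
          have h7 : wp (fun m => (f (a m) : Matrix (Fin d) (Fin d) R)) w =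
              ((f (wp a w) : (Matrix (Fin d) (Fin d) R)ˣ) : Matrix (Fin d) (Fin d) R) := by
            rw [h6]
            exact h5.symm
          rw [h7, ← Units.val_pow_eq_pow_val, ← map_pow, hw w hwl, map_one, Units.val_one,
            sub_self]
        exact congrFun (congrFun h2 i) j
    exact h1 hp
  let ev' : (MvPolynomial (Var k d) ℤ ⧸ relI k n d N) →+* R := Ideal.Quotient.lift _ ev hker
  let F : (Matrix (Fin d) (Fin d) (MvPolynomial (Var k d) ℤ ⧸ relI k n d N))ˣ →*
      (Matrix (Fin d) (Fin d) R)ˣ := Units.map (ev'.mapMatrix).toMonoidHom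
  have hF : ∀ m, F (uu k n d N m) = f (a m) := by
    intro m
    rw [Units.ext_iff]
    change ev'.mapMatrix ((Ideal.Quotient.mk (relI k n d N)).mapMatrix (XM k d m)) = _
    rw [← hX]
    ext i j
    simp [ev']
  have hrange : f.range = (Subgroup.closure (Set.range (uu k n d N))).map F := by
    rw [MonoidHom.range_eq_map, ← hgen, MonoidHom.map_closure, MonoidHom.map_closure,
      ← Set.range_comp, ← Set.range_comp]
    congr 2
    funext m
    exact (hF m).symm
  have hfr : Finite f.range := by
    rw [hrange]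
    exact (Set.toFinite ((Subgroup.closure (Set.range (uu k n d N))) : Set _)).image F
  refine ⟨inferInstance, ?_⟩
  rw [Subgroup.index_ker, hrange]
  exact Nat.card_image_le (Set.toFinite _)

end Pool.Agent.Lib.MP_322c76_al
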