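import Pool.Agent.Lib.MP_322c76_al.Series

/-!
# The subgroup generated by the powers is perfect

`a` generates `G`, `U` is the subgroup generated by all `n`-th powers, of index at most `R`. If
`(wp a w) ^ n = 1` for all words `w` with at most `3 R - 2` letters, then `U = [U, U]`.

Proof: every coset of `U` contains a word with at most `R - 1` letters; the words of length at most
`2 R - 1` with value in `U` generate `U` (Schreier). Modulo `D = [U, U]` one has
`(t v) ^ n = t ^ n φ(v)` for `v ∈ U`, where `φ` is a homomorphism on `U / D`; if `t` is a short word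
then `φ` is trivial on the loops, hence on `U / D`, and `(t v) ^ n ∈ D`.
-/

set_option autoImplicit false

namespace Pool.Agent.Lib.MP_322c76_al

universe u

/-- the subgroup generated by all `n`-th powers -/
def Pw (n : ℕ) (G : Type u) [Group G] : Subgroup G := Subgroup.closure {x | ∃ g : G, g ^ n = x}

theorem Pw_normal (n : ℕ) (G : Type u) [Group G] : (Pw n G).Normal := by
  constructor
  intro x hx g
  unfold Pw at hx ⊢
  induction hx using Subgroup.closure_induction with
  | mem x hx =>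
    obtain ⟨h, rfl⟩ := hx
    exact Subgroup.subset_closure ⟨g * h * g⁻¹, conj_pow⟩
  | one => simp
  | mul x y _ _ hx hy =>
    have e : g * (x * y) * g⁻¹ = (g * x * g⁻¹) * (g * y * g⁻¹) := by group
    rw [e]
    exact mul_mem hx hy
  | inv x _ hx =>
    have e : g * x⁻¹ * g⁻¹ = (g * x * g⁻¹)⁻¹ := by group
    rw [e]
    exact inv_mem hx

/-- the loops of length less than `2 R` generate `U` -/
theorem loops_gen {G : Type u} [Group G] {ι : Type u} (a : ι → G)
    (hgen : Subgroup.closure (Set.range a) = ⊤) (U : Subgroup G) (hU : U.Normal) (R : ℕ) (hR : 1 ≤ R)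
    (hrep : ∀ g : G, ∃ w : List ι, w.length < R ∧ (wp a w)⁻¹ * g ∈ U) :
    U ≤ Subgroup.closure {g | g ∈ U ∧ ∃ w : List ι, w.length < 2 * R ∧ wp a w = g} := by
  set L := Subgroup.closure {g | g ∈ U ∧ ∃ w : List ι, w.length < 2 * R ∧ wp a w = g} with hL
  have hloop : ∀ w : List ι, w.length < 2 * R → wp a w ∈ U → wp a w ∈ L := fun w h1 h2 =>
    Subgroup.subset_closure ⟨h2, w, h1, rfl⟩
  have hLU : L ≤ U := by
    rw [hL, Subgroup.closure_le]
    rintro g ⟨hg, _⟩
    exact hg
  -- one step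
  have hstep : ∀ (w w' : List ι) (i : ι), w.length < R → w'.length < R →
      (wp a w')⁻¹ * (wp a w * a i) ∈ U → wp a w * a i * (wp a w')⁻¹ ∈ L := by
    intro w w' i hw hw' h
    obtain ⟨s, hs, hsU⟩ := hrep (wp a w')⁻¹
    have h1 : wp a (w' ++ s) ∈ U := by
      rw [wp_append]
      have h2 := inv_mem (hU.conj_mem _ hsU (wp a s))
      have h3 := hU.conj_mem _ h2 (wp a w')
      have e : wp a w' * wp a s = wp a w' * (wp a s * ((wp a s)⁻¹ * (wp a w')⁻¹) * (wp a s)⁻¹)⁻¹ * (wp a w')⁻¹ := by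
        group
      rw [e]
      exact h3
    have h2 : wp a (w ++ i :: s) ∈ U := by
      have e1 : wp a (w ++ i :: s) = wp a w * a i * wp a s := by
        rw [wp_append]
        simp [wp, mul_assoc]
      have e2 : wp a w * a i * wp a s = wp a w' * ((wp a w')⁻¹ * (wp a w * a i)) * (wp a w')⁻¹ * (wp a w' * wp a s) := by
        group
      rw [e1, e2, ← wp_append]
      exact mul_mem (hU.conj_mem _ h _) h1
    have h3 := hloop _ (by simp only [List.length_append, List.length_cons]; omega) h2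
    have h4 := hloop _ (by simp only [List.length_append]; omega) h1
    have e : wp a w * a i * (wp a w')⁻¹ = wp a (w ++ i :: s) * (wp a (w' ++ s))⁻¹ := by
      rw [wp_append, wp_append]
      have : wp a (i :: s) = a i * wp a s := by simp [wp]
      rw [this]
      group
    rw [e]
    exact mul_mem h3 (inv_mem h4)
  have hall : ∀ g : G, ∃ w : List ι, w.length < R ∧ g * (wp a w)⁻¹ ∈ L := by
    intro g
    have hg : g ∈ Subgroup.closure (Set.range a) := by rw [hgen]; trivial
    induction hg using Subgroup.closure_induction_right with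
    | one => exact ⟨[], Nat.lt_of_lt_of_le Nat.zero_lt_one hR, by simp [wp]⟩
    | mul_right x _ y hy ih =>
      obtain ⟨i, rfl⟩ := hy
      obtain ⟨w, hw, hx⟩ := ih
      obtain ⟨w', hw', h'⟩ := hrep (wp a w * a i)
      refine ⟨w', hw', ?_⟩
      have h2 := mul_mem hx (hstep w w' i hw hw' h')
      have e : x * a i * (wp a w')⁻¹ = x * (wp a w)⁻¹ * (wp a w * a i * (wp a w')⁻¹) := by group
      rw [e]
      exact h2
    | mul_inv_cancel x _ y hy ih =>
      obtain ⟨i, rfl⟩ := hy
      obtain ⟨w, hw, hx⟩ := ih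
      obtain ⟨w', hw', h'⟩ := hrep (wp a w * (a i)⁻¹)
      refine ⟨w', hw', ?_⟩
      have h2 : (wp a w)⁻¹ * (wp a w' * a i) ∈ U := by
        have h3 := hU.conj_mem _ (inv_mem h') (a i)⁻¹
        have e : (wp a w)⁻¹ * (wp a w' * a i) = (a i)⁻¹ * ((wp a w')⁻¹ * (wp a w * (a i)⁻¹))⁻¹ * ((a i)⁻¹)⁻¹ := by
          group
        rw [e]
        exact h3
      have h4 := mul_mem hx (inv_mem (hstep w' w i hw' hw h2))
      have e : x * (a i)⁻¹ * (wp a w')⁻¹ = x * (wp a w)⁻¹ * (wp a w' * a i * (wp a w)⁻¹)⁻¹ := by group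
      rw [e]
      exact h4
  intro g hg
  obtain ⟨w, hw, h⟩ := hall g
  have h1 : wp a w ∈ U := by
    have h2 := mul_mem (inv_mem (hLU h)) hg
    have e : (g * (wp a w)⁻¹)⁻¹ * g = wp a w := by group
    rwa [e] at h2
  have h3 := mul_mem h (hloop w (by omega) h1)
  rwa [inv_mul_cancel_right] at h3

/-- the correction term of the power of a product -/
def phi {Q : Type u} [Group Q] (t : Q) : ℕ → Q → Q
  | 0, _ => 1
  | m + 1, v => t⁻¹ * phi t m v * t * v

theorem phi_pow {Q : Type u} [Group Q] (t v : Q) (m : ℕ) : (t * v) ^ m = t ^ m * phi t m v := by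
  induction m with
  | zero => simp [phi]
  | succ m ih =>
    rw [pow_succ, ih, pow_succ]
    simp only [phi]
    group

theorem phi_mem {Q : Type u} [Group Q] {V : Subgroup Q} (hV : V.Normal) (t : Q) (m : ℕ) {v : Q} (hv : v ∈ V) :
    phi t m v ∈ V := by
  induction m with
  | zero => exact one_mem V
  | succ m ih =>
    have h := hV.conj_mem _ ih t⁻¹
    rw [inv_inv] at h
    exact mul_mem h hv

theorem phi_mul {Q : Type u} [Group Q] {V : Subgroup Q} (hV : V.Normal) (hc : ∀ x ∈ V, ∀ y ∈ V, x * y = y * x)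
    (t : Q) (m : ℕ) {v w : Q} (hv : v ∈ V) (hw : w ∈ V) : phi t m (v * w) = phi t m v * phi t m w := by
  induction m with
  | zero => simp [phi]
  | succ m ih =>
    simp only [phi]
    rw [ih]
    have h := hV.conj_mem _ (phi_mem hV t m hw) t⁻¹
    rw [inv_inv] at h
    have h2 := hc _ h _ hv
    calc t⁻¹ * (phi t m v * phi t m w) * t * (v * w)
        = t⁻¹ * phi t m v * t * ((t⁻¹ * phi t m w * t) * v) * w := by group
      _ = t⁻¹ * phi t m v * t * (v * (t⁻¹ * phi t m w * t)) * w := by rw [h2]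
      _ = t⁻¹ * phi t m v * t * v * (t⁻¹ * phi t m w * t * w) := by group

theorem phi_one {Q : Type u} [Group Q] (t : Q) (m : ℕ) : phi t m 1 = 1 := by
  induction m with
  | zero => rfl
  | succ m ih => simp [phi, ih]

theorem phi_closure {Q : Type u} [Group Q] {V : Subgroup Q} (hV : V.Normal) (hc : ∀ x ∈ V, ∀ y ∈ V, x * y = y * x)
    (t : Q) (m : ℕ) (S : Set Q) (hS : ∀ s ∈ S, s ∈ V ∧ phi t m s = 1) {v : Q} (hv : v ∈ Subgroup.closure S) :
    v ∈ V ∧ phi t m v = 1 := by
  induction hv using Subgroup.closure_induction with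
  | mem x hx => exact hS x hx
  | one => exact ⟨one_mem V, phi_one t m⟩
  | mul x y _ _ hx hy => exact ⟨mul_mem hx.1 hy.1, by rw [phi_mul hV hc t m hx.1 hy.1, hx.2, hy.2, mul_one]⟩
  | inv x _ hx =>
    refine ⟨inv_mem hx.1, ?_⟩
    have h := phi_mul hV hc t m hx.1 (inv_mem hx.1)
    rw [mul_inv_cancel, phi_one, hx.2, one_mul] at h
    exact h.symm

/-- **The subgroup generated by the `n`-th powers is perfect.** -/
theorem Pw_perfect {G : Type u} [Group G] {ι : Type u} (a : ι → G) (n R : ℕ) (hn : 1 ≤ n)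
    (hgen : Subgroup.closure (Set.range a) = ⊤) (hfi : (Pw n G).FiniteIndex) (hidx : (Pw n G).index ≤ R)
    (hw : ∀ w : List ι, w.length + 2 ≤ 3 * R → wp a w ^ n = 1) : ⁅Pw n G, Pw n G⁆ = Pw n G := by
  have hU := Pw_normal n G
  have hR : 1 ≤ R := (Nat.one_le_iff_ne_zero.2 hfi.index_ne_zero).trans hidx
  have hpow : ∀ g : G, g ^ n ∈ Pw n G := fun g => Subgroup.subset_closure ⟨g, rfl⟩
  have hfq : Finite (G ⧸ Pw n G) := inferInstance
  have hrep : ∀ g : G, ∃ w : List ι, w.length < R ∧ (wp a w)⁻¹ * g ∈ Pw n G := by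
    intro g
    obtain ⟨w, hwl, hwg⟩ := short_word (fun i => (a i : G ⧸ Pw n G)) (fun q => by
      have hq : q ∈ Subgroup.closure (Set.range fun i => (a i : G ⧸ Pw n G)) := by
        have e : (Set.range fun i => (a i : G ⧸ Pw n G)) = (QuotientGroup.mk' (Pw n G)) '' Set.range a := by
          rw [← Set.range_comp]; rfl
        rw [e, ← MonoidHom.map_closure, hgen, ← MonoidHom.range_eq_map,
          MonoidHom.range_eq_top.2 (QuotientGroup.mk'_surjective _)]
        trivial
      exact pos_word _ hn (fun i => by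
        rw [← QuotientGroup.mk_pow, QuotientGroup.eq_one_iff]
        exact hpow _) hq) (g : G ⧸ Pw n G)
    refine ⟨w, ?_, ?_⟩
    · have h3 : Nat.card (G ⧸ Pw n G) = (Pw n G).index := rfl
      rw [h3] at hwl
      omega
    · have h3 : ((wp a w : G) : G ⧸ Pw n G) = g := by
        rw [← hwg]
        exact map_wp (QuotientGroup.mk' (Pw n G)) a w
      exact QuotientGroup.eq.1 h3
  have hloops := loops_gen a hgen (Pw n G) hU R hR hrep
  have hD : (⁅Pw n G, Pw n G⁆).Normal := Subgroup.commutator_normal _ _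
  refine le_antisymm (Subgroup.commutator_le_left _ _) ?_
  have key : ∀ g : G, g ^ n ∈ ⁅Pw n G, Pw n G⁆ := by
    intro g
    obtain ⟨w, hwl, hwU⟩ := hrep g
    let π := QuotientGroup.mk' ⁅Pw n G, Pw n G⁆
    have hV : ((Pw n G).map π).Normal := hU.map π (QuotientGroup.mk'_surjective _)
    have hc : ∀ x ∈ (Pw n G).map π, ∀ y ∈ (Pw n G).map π, x * y = y * x := by
      rintro _ ⟨x, hx, rfl⟩ _ ⟨y, hy, rfl⟩
      rw [← map_mul, ← map_mul]
      apply QuotientGroup.eq.2
      have h1 := Subgroup.commutator_mem_commutator (inv_mem hy) (inv_mem hx)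
      have h1' : y⁻¹ * x⁻¹ * (y⁻¹)⁻¹ * (x⁻¹)⁻¹ ∈ ⁅Pw n G, Pw n G⁆ := h1
      have e : y⁻¹ * x⁻¹ * (y⁻¹)⁻¹ * (x⁻¹)⁻¹ = (x * y)⁻¹ * (y * x) := by group
      rwa [e] at h1'
    have hu : π ((wp a w)⁻¹ * g) ∈ Subgroup.closure (π '' {g | g ∈ Pw n G ∧ ∃ w : List ι, w.length < 2 * R ∧ wp a w = g}) := by
      rw [← MonoidHom.map_closure]
      exact ⟨_, hloops hwU, rfl⟩
    have ht : π (wp a w) ^ n = 1 := by
      rw [← map_pow, hw w (by omega), map_one]
    have hφ := (phi_closure hV hc (π (wp a w)) n _ (by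
      rintro _ ⟨x, ⟨hx, v, hv, rfl⟩, rfl⟩
      refine ⟨⟨_, hx, rfl⟩, ?_⟩
      have h1 : (π (wp a w) * π (wp a v)) ^ n = 1 := by
        rw [← map_mul, ← map_pow, ← wp_append, hw (w ++ v) (by rw [List.length_append]; omega), map_one]
      rw [phi_pow, ht, one_mul] at h1
      exact h1) hu).2
    have h2 : π g ^ n = 1 := by
      have e : π g = π (wp a w) * π ((wp a w)⁻¹ * g) := by rw [← map_mul, mul_inv_cancel_left]
      rw [e, phi_pow, ht, hφ, one_mul]
    rw [← map_pow] at h2
    exact (QuotientGroup.eq_one_iff _).1 h2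
  unfold Pw at key ⊢
  rw [Subgroup.closure_le]
  rintro _ ⟨g, rfl⟩
  exact key g

theorem Pw_solvable {G : Type u} [Group G] (n : ℕ) (hG : Group.IsSolvable G) (h : ⁅Pw n G, Pw n G⁆ = Pw n G) (g : G) :
    g ^ n = 1 := by
  obtain ⟨m, hm⟩ := hG.solvable
  have h1 : ∀ j, Pw n G ≤ derivedSeries G j := by
    intro j
    induction j with
    | zero => exact le_top
    | succ j ih =>
      rw [derivedSeries_succ, ← h]
      exact Subgroup.commutator_mono ih ih
  have h2 := h1 m (Subgroup.subset_closure ⟨g, rfl⟩)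
  rw [hm] at h2
  exact Subgroup.mem_bot.1 h2

end Pool.Agent.Lib.MP_322c76_al
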