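import Pool.Agent.Lib.MP_322c76_al.Series

/-!
# Schreier generators which are short words

The argument of `main_series`, as a separate statement.
-/

set_option autoImplicit false

namespace Pool.Agent.Lib.MP_322c76_al

universe u

theorem schreier (k n B1 : ℕ) (hn : 0 < n) : ∃ k' L : ℕ, ∀ (G : Type u) [Group G]
    (a : Fin k → G) (H : Subgroup G), H.Normal → H.FiniteIndex → H.index ≤ B1 →
      Subgroup.closure (Set.range a) = ⊤ →
      (∀ w : List (Fin k), w.length ≤ max 1 B1 → wp a w ^ n = 1) →
        ∃ (b : Fin k' → H) (c : Fin k' → List (Fin k)), (∀ j, wp a (c j) = b j) ∧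
          (∀ j, (c j).length ≤ L) ∧ Subgroup.closure (Set.range b) = ⊤ := by
  classical
  let W := {w : List (Fin k) // w.length ≤ B1}
  have hWfin : Finite W := List.finite_length_le (Fin k) B1
  let J := W × Fin k × W
  let e : J ≃ Fin (Nat.card J) := Finite.equivFin J
  refine ⟨Nat.card J, B1 + 1 + B1 * (n - 1), ?_⟩
  intro G _ a H hHn hfi hidx hgen hw
  have hwB1 : ∀ w : List (Fin k), w.length ≤ B1 → wp a w ^ n = 1 := fun w h =>
    hw w (h.trans (le_max_right _ _))
  have ha : ∀ i, a i ^ n = 1 := fun i => by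
    have := hw [i] (by
      rw [List.length_singleton]
      exact le_max_left 1 _)
    rwa [wp_single] at this
  have hfq : Finite (G ⧸ H) := inferInstance
  have hinv : ∀ w : List (Fin k), w.length ≤ B1 → wp a w ^ (n - 1) = (wp a w)⁻¹ := by
    intro w h
    apply eq_inv_of_mul_eq_one_left
    rw [← pow_succ, Nat.sub_add_cancel hn]
    exact hwB1 w h
  -- coset representatives
  have hrep : ∀ q : Quotient (QuotientGroup.rightRel H), ∃ w : List (Fin k),
      w.length ≤ B1 ∧ Quotient.mk'' (wp a w) = q := by
    intro q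
    obtain ⟨g, rfl⟩ := Quotient.exists_rep q
    obtain ⟨w, hwl, hwg⟩ := short_word (fun i => (a i : G ⧸ H)) (fun q => by
      induction q using QuotientGroup.induction_on with
      | H g =>
        obtain ⟨w, hw⟩ := pos_word a hn ha (g := g) (by rw [hgen]; trivial)
        refine ⟨w, ?_⟩
        rw [← hw]
        exact (map_wp (QuotientGroup.mk' H) a w).symm) (g : G ⧸ H)
    refine ⟨w, ?_, ?_⟩
    · have h3 : Nat.card (G ⧸ H) = H.index := rfl
      rw [h3] at hwl
      omega
    · have h3 : ((wp a w : G) : G ⧸ H) = g := by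
        rw [← hwg]
        exact map_wp (QuotientGroup.mk' H) a w
      rw [QuotientGroup.eq] at h3
      apply Quotient.sound
      change QuotientGroup.rightRel H _ _
      rw [QuotientGroup.rightRel_apply]
      exact (inferInstance : H.Normal).mem_comm h3
  choose c0 hc0 hc0' using hrep
  let c : Quotient (QuotientGroup.rightRel H) → List (Fin k) := fun q =>
    if q = Quotient.mk'' (1 : G) then [] else c0 q
  have hc : ∀ q, (c q).length ≤ B1 := by
    intro q
    simp only [c]
    split_ifs
    · simp
    · exact hc0 q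
  have hc' : ∀ q, Quotient.mk'' (wp a (c q)) = q := by
    intro q
    simp only [c]
    split_ifs with h
    · rw [h]; rfl
    · exact hc0' q
  have hcomp := Subgroup.isComplement_range_right (H := H) (f := fun q => wp a (c q)) hc'
  have hone : (1 : G) ∈ Set.range (fun q => wp a (c q)) := by
    refine ⟨Quotient.mk'' (1 : G), ?_⟩
    simp [c, wp_nil]
  have hsch := Subgroup.closure_mul_image_eq_top hcomp hone hgen
  -- Schreier generators
  let word : J → List (Fin k) := fun j =>
    (j.1 : List (Fin k)) ++ [j.2.1] ++ (List.replicate (n - 1) (j.2.2 : List (Fin k))).flatten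
  have hword : ∀ j, wp a (word j) = wp a (j.1 : List (Fin k)) * a j.2.1 *
      (wp a (j.2.2 : List (Fin k)))⁻¹ := by
    intro j
    simp only [word]
    rw [wp_append, wp_append, wp_single, wp_flatten, hinv _ j.2.2.2]
  have hlen : ∀ j, (word j).length ≤ B1 + 1 + B1 * (n - 1) := by
    intro j
    simp only [word]
    rw [List.length_append, List.length_append, List.length_singleton, List.length_flatten,
      List.map_replicate, List.sum_replicate, smul_eq_mul]
    have h3 := j.1.2
    have h4 := j.2.2.2
    have h5 : (n - 1) * (j.2.2 : List (Fin k)).length ≤ B1 * (n - 1) := by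
      rw [mul_comm]
      exact Nat.mul_le_mul_right _ h4
    omega
  let cw : Fin (Nat.card J) → List (Fin k) := fun m =>
    if wp a (word (e.symm m)) ∈ H then word (e.symm m) else []
  have hcw : ∀ m, wp a (cw m) ∈ H := by
    intro m
    simp only [cw]
    split_ifs with h
    · exact h
    · rw [wp_nil]; exact H.one_mem
  let b : Fin (Nat.card J) → H := fun m => ⟨wp a (cw m), hcw m⟩
  have hcwlen : ∀ m, (cw m).length ≤ B1 + 1 + B1 * (n - 1) := by
    intro m
    simp only [cw]
    split_ifs
    · exact hlen _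
    · simp
  refine ⟨b, cw, fun _ => rfl, hcwlen, ?_⟩
  rw [eq_top_iff, ← hsch]
  refine Subgroup.closure_mono ?_
  rintro _ ⟨g, hg, rfl⟩
  obtain ⟨r, ⟨q, hq⟩, s, ⟨i, hi⟩, hrs⟩ := Set.mem_mul.1 hg
  obtain ⟨q', hq'⟩ := (hcomp.toRightFun g).2
  refine ⟨e (⟨c q, hc q⟩, i, ⟨c q', hc q'⟩), ?_⟩
  apply Subtype.ext
  have h5 : wp a (word (⟨c q, hc q⟩, i, ⟨c q', hc q'⟩)) =
      g * ((hcomp.toRightFun g : G))⁻¹ := by
    rw [hword]
    have h6 : wp a (c q) = r := hq
    have h7 : wp a (c q') = (hcomp.toRightFun g : G) := hq'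
    simp only [h6, h7]
    rw [hi, hrs]
  have h6 : wp a (word (⟨c q, hc q⟩, i, ⟨c q', hc q'⟩)) ∈ H := by
    rw [h5]
    exact hcomp.mul_inv_toRightFun_mem g
  change wp a (cw _) = _
  simp only [cw, Equiv.symm_apply_apply]
  rw [if_pos h6, h5]

end Pool.Agent.Lib.MP_322c76_al
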