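import Pool.Agent.Lib.MP_322c76_al.Chief
import Pool.Agent.Lib.MP_322c76_al.Schreier

/-!
# Reduction to simple groups
-/

set_option autoImplicit false

namespace Pool.Agent.Lib.MP_322c76_al

universe u

theorem core_trivial {Q : Type u} [Group Q] {M : Subgroup Q} (hM : MinimalNormal M)
    (T : Subgroup M) (hT : T ≠ ⊤) (m : M) (h : ∀ q : Q, q * m * q⁻¹ ∈ T.map M.subtype) :
    m = 1 := by
  have hle : T.map M.subtype ≤ M := by
    rintro _ ⟨x, _, rfl⟩
    exact x.2
  have h1 : (T.map M.subtype).normalCore = ⊥ := by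
    rcases hM.2.2 (T.map M.subtype).normalCore inferInstance
      ((Subgroup.normalCore_le _).trans hle) with h2 | h2
    · exact h2
    · exfalso
      apply hT
      rw [eq_top_iff]
      intro x _
      have h3 : (x : Q) ∈ (T.map M.subtype).normalCore := by
        rw [h2]
        exact x.2
      obtain ⟨y, hy, hyx⟩ := (Subgroup.normalCore_le _) h3
      have h4 : y = x := Subtype.ext hyx
      rw [← h4]
      exact hy
  have h2 : (m : Q) ∈ (T.map M.subtype).normalCore := h
  rw [h1, Subgroup.mem_bot] at h2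
  exact Subtype.ext h2

theorem mem_of_conj {Q : Type u} [Group Q] {M : Subgroup Q} (hMn : M.Normal) (T : Subgroup M)
    (q : Q) (x : M) (h : MulAut.conjNormal q x ∈ T) : q * x * q⁻¹ ∈ T.map M.subtype :=
  ⟨MulAut.conjNormal q x, h, rfl⟩

theorem lift_linear {d : ℕ} {Q : Type u} [Group Q] {M : Subgroup Q} (hM : MinimalNormal M)
    (T : Subgroup M) [T.Normal] (hT : T ≠ ⊤) (h : AbelianOrLinear d (M ⧸ T)) :
    AbelianOrLinear d M := by
  have hMn : M.Normal := hM.1
  have key : ∀ x y : M, (∀ q : Q, (QuotientGroup.mk (MulAut.conjNormal q x) : M ⧸ T) =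
      QuotientGroup.mk (MulAut.conjNormal q y)) → x = y := by
    intro x y hxy
    have h1 : x⁻¹ * y = 1 := by
      refine core_trivial hM T hT _ fun q => ?_
      refine mem_of_conj hMn T q _ ?_
      rw [map_mul, map_inv]
      exact QuotientGroup.eq.1 (hxy q)
    exact inv_mul_eq_one.1 h1
  rcases h with h | ⟨R, i, e, f, he, hf⟩
  · refine Or.inl fun x y => key _ _ fun q => ?_
    rw [map_mul, map_mul, QuotientGroup.mk_mul, QuotientGroup.mk_mul]
    exact h _ _
  · let F : M →* Matrix (Fin e) (Fin e) (Q → R) :=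
      { toFun := fun m => Matrix.of fun i j q =>
          (f (QuotientGroup.mk (MulAut.conjNormal q m)) : Matrix (Fin e) (Fin e) R) i j
        map_one' := by
          ext i j q
          rw [Matrix.of_apply, map_one, QuotientGroup.mk_one, map_one, Units.val_one,
            Matrix.one_apply, Matrix.one_apply]
          split_ifs <;> rfl
        map_mul' := by
          intro x y
          ext i j q
          rw [Matrix.of_apply, map_mul, QuotientGroup.mk_mul, map_mul, Units.val_mul,
            Matrix.mul_apply, Matrix.mul_apply, Finset.sum_apply]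
          rfl }
    refine Or.inr ⟨Q → R, inferInstance, e, F.toHomUnits, he, ?_⟩
    intro x y hxy
    have h1 : F x = F y := congrArg Units.val hxy
    refine key x y fun q => hf (Units.ext ?_)
    ext i j
    exact congrFun (congrFun (congrFun h1 i) j) q

theorem exists_simple {M : Type u} [Group M] [Finite M] [Nontrivial M] :
    ∃ (T : Subgroup M) (_ : T.Normal), T ≠ ⊤ ∧ IsSimpleGroup (M ⧸ T) := by
  have hne : {T : Subgroup M | T.Normal ∧ T ≠ ⊤}.Nonempty := ⟨⊥, inferInstance, bot_ne_top⟩
  obtain ⟨T, hT⟩ := (Set.toFinite _).exists_maximal hne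
  have hTn : T.Normal := hT.1.1
  refine ⟨T, hTn, hT.1.2, ?_⟩
  have hnt : Nontrivial (M ⧸ T) := by
    rw [← not_subsingleton_iff_nontrivial, QuotientGroup.subsingleton_iff]
    exact hT.1.2
  refine { hnt with eq_bot_or_eq_top_of_normal := fun L hL => ?_ }
  by_cases h : L.comap (QuotientGroup.mk' T) = ⊤
  · right
    rw [eq_top_iff]
    intro q _
    obtain ⟨x, rfl⟩ := QuotientGroup.mk'_surjective T q
    have : x ∈ L.comap (QuotientGroup.mk' T) := by
      rw [h]
      exact Subgroup.mem_top x
    exact this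
  · left
    have h1 : T ≤ L.comap (QuotientGroup.mk' T) := by
      intro x hx
      have h3 : QuotientGroup.mk' T x = 1 := (QuotientGroup.eq_one_iff x).2 hx
      rw [Subgroup.mem_comap, h3]
      exact one_mem _
    have h2 := hT.2 ⟨inferInstance, h⟩ h1
    rw [eq_bot_iff]
    intro q hq
    obtain ⟨x, rfl⟩ := QuotientGroup.mk'_surjective T q
    exact (QuotientGroup.eq_one_iff x).2 (h2 hq)

/-- the reduction -/
theorem reduction (k n R : ℕ) (hn : 0 < n) : ∃ k' : ℕ, ∀ d N' : ℕ, ∃ N : ℕ,
    ∀ (G : Type u) [Group G] [Finite G] (a : Fin k → G), Subgroup.closure (Set.range a) = ⊤ →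
      (∀ L : Subgroup G, L.Normal → (∀ g : G, g ^ n ∈ L) → L.index ≤ R) →
      (∀ w : List (Fin k), w.length ≤ N → wp a w ^ n = 1) →
        (∀ g : G, g ^ n = 1) ∨ ∃ (H : Subgroup G) (S : Type u) (_ : Group S) (p : H →* S),
          H.Normal ∧ Function.Surjective p ∧ IsSimpleGroup S ∧ ¬ AbelianOrLinear d S ∧
            ∃ b : Fin k' → S, Subgroup.closure (Set.range b) = ⊤ ∧
              ∀ v : List (Fin k'), v.length ≤ N' → wp b v ^ n = 1 := by
  obtain ⟨k', L, hS⟩ := schreier.{u} k n R hn
  refine ⟨k', fun d N' => ?_⟩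
  obtain ⟨N0, hC⟩ := chief_core.{u} k n d R hn
  refine ⟨max (max 1 R) (max N0 (L * N')), fun G _ _ a hgen hR hw => ?_⟩
  rcases hC G a hgen hR (fun w hwl => hw w (hwl.trans
    ((le_max_left _ _).trans (le_max_right _ _)))) with h | ⟨K, hK, M, hq, hM, hMn, hidx, hlin⟩
  · exact Or.inl h
  right
  have hMnor : M.Normal := hM.1
  have hnt : Nontrivial M := by
    rw [Subgroup.nontrivial_iff_ne_bot]
    exact hM.2.1
  obtain ⟨T, hTn, hT, hsimple⟩ := exists_simple (M := M)
  have hgen' : Subgroup.closure (Set.range fun i => QuotientGroup.mk' K (a i)) = ⊤ := by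
    have h1 : (Set.range fun i => QuotientGroup.mk' K (a i)) =
        QuotientGroup.mk' K '' Set.range a := by
      rw [← Set.range_comp]
      rfl
    rw [h1, ← MonoidHom.map_closure, hgen, ← MonoidHom.range_eq_map]
    exact MonoidHom.range_eq_top.2 (QuotientGroup.mk'_surjective K)
  have hword : ∀ w : List (Fin k), wp (fun i => QuotientGroup.mk' K (a i)) w =
      QuotientGroup.mk' K (wp a w) := by
    intro w
    simp only [wp, map_list_prod, List.map_map]
    rfl
  have hw' : ∀ w : List (Fin k), w.length ≤ max (max 1 R) (max N0 (L * N')) →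
      wp (fun i => QuotientGroup.mk' K (a i)) w ^ n = 1 := by
    intro w hwl
    rw [hword, ← map_pow, hw w hwl, map_one]
  obtain ⟨b, c, hbc, hcl, hbgen⟩ := hS (G ⧸ K) (fun i => QuotientGroup.mk' K (a i)) M hMnor
    inferInstance hidx hgen' (fun w hwl => hw' w (hwl.trans (le_max_left _ _)))
  -- the normal subgroup `H` and the map onto `M ⧸ T`
  let H : Subgroup G := M.comap (QuotientGroup.mk' K)
  let p0 : H →* M :=
    { toFun := fun x => ⟨QuotientGroup.mk' K x, x.2⟩
      map_one' := by
        apply Subtype.ext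
        exact map_one _
      map_mul' := by
        intro x y
        apply Subtype.ext
        exact map_mul _ _ _ }
  have hp0 : Function.Surjective p0 := by
    rintro ⟨q, hq⟩
    obtain ⟨x, rfl⟩ := QuotientGroup.mk'_surjective K q
    exact ⟨⟨x, hq⟩, rfl⟩
  refine ⟨H, M ⧸ T, inferInstance, (QuotientGroup.mk' T).comp p0, inferInstance, ?_, hsimple,
    fun hc => hlin (lift_linear hM T hT hc), fun j => QuotientGroup.mk' T (b j), ?_, ?_⟩
  · exact (QuotientGroup.mk'_surjective T).comp hp0
  · have h1 : (Set.range fun j => QuotientGroup.mk' T (b j)) =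
        QuotientGroup.mk' T '' Set.range b := by
      rw [← Set.range_comp]
      rfl
    rw [h1, ← MonoidHom.map_closure, hbgen, ← MonoidHom.range_eq_map]
    exact MonoidHom.range_eq_top.2 (QuotientGroup.mk'_surjective T)
  · intro v hv
    have h1 : wp (fun j => QuotientGroup.mk' T (b j)) v = QuotientGroup.mk' T (wp b v) := by
      simp only [wp, map_list_prod, List.map_map]
      rfl
    obtain ⟨w, hw1, hw2⟩ := word_flat _ b c hbc hcl v
    have h2 : wp b v ^ n = 1 := by
      apply Subtype.ext
      rw [Subgroup.coe_pow, ← hw2, hw' w (hw1.trans ((Nat.mul_le_mul_left _ hv).trans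
        ((le_max_right _ _).trans (le_max_right _ _))))]
      rfl
    rw [h1, ← map_pow, h2, map_one]

end Pool.Agent.Lib.MP_322c76_al
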