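import Pool.Agent.Lib.MP_322c76_al.Perfect
import Pool.Agent.Lib.MP_322c76_al.Simple

/-!
# No quotient of the subgroup generated by the powers is linear of bounded degree

`a` generates `G` (finite or not), `U` is the subgroup generated by all `n`-th powers, of index at
most `R`. `U` is generated by `k'` short words (`schreier`). If `S` is a quotient of `U` which is
abelian or linear of degree at most `d`, then `S` has order at most `B` (`exponent_bound`), so the
kernel `M` of `U → S` has index at most `B R` in `G`, and its core `K` has index at most `(B R)!`.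
The words with fewer than `(B R)!` letters cover `G / K`, so all `n`-th powers are in `K`,
`U ≤ K ≤ M`, and `S` is trivial.
-/

set_option autoImplicit false

namespace Pool.Agent.Lib.MP_322c76_al

universe u

theorem core_index {G : Type u} [Group G] (H : Subgroup G) (hH : H.index ≠ 0) {m : ℕ}
    (hm : H.index ≤ m) : H.normalCore.index ≠ 0 ∧ H.normalCore.index ≤ m.factorial := by
  have hfin : H.FiniteIndex := ⟨hH⟩
  have h : H.normalCore.index ∣ H.index.factorial := by
    rw [Subgroup.normalCore_eq_ker, Subgroup.index_ker, Subgroup.index_eq_card, ← Nat.card_perm]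
    exact Subgroup.card_subgroup_dvd_card (MulAction.toPermHom G (G ⧸ H)).range
  refine ⟨fun h0 => ?_, (Nat.le_of_dvd (Nat.factorial_pos _) h).trans (Nat.factorial_le hm)⟩
  rw [h0, zero_dvd_iff] at h
  exact Nat.factorial_ne_zero _ h

theorem pow_mem_of_short {k : ℕ} {G : Type u} [Group G] (a : Fin k → G)
    (hgen : Subgroup.closure (Set.range a) = ⊤) (n : ℕ) (K : Subgroup G) (hKn : K.Normal)
    (hK : K.index ≠ 0) (hw : ∀ w : List (Fin k), w.length ≤ K.index → wp a w ^ n = 1) (g : G) :
    g ^ n ∈ K := by
  have hfin : K.FiniteIndex := ⟨hK⟩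
  have hfq : Finite (G ⧸ K) := inferInstance
  obtain ⟨w, hwl, hwg⟩ := short_word (fun i => (a i : G ⧸ K)) (fun q => by
    have hq : q ∈ Subgroup.closure (Set.range fun i => (a i : G ⧸ K)) := by
      have e : (Set.range fun i => (a i : G ⧸ K)) = (QuotientGroup.mk' K) '' Set.range a := by
        rw [← Set.range_comp]; rfl
      rw [e, ← MonoidHom.map_closure, hgen, ← MonoidHom.range_eq_map,
        MonoidHom.range_eq_top.2 (QuotientGroup.mk'_surjective _)]
      trivial
    exact pos_word _ (n := Nat.card (G ⧸ K)) Nat.card_pos (fun i => pow_card_eq_one') hq) (g : G ⧸ K)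
  have h3 : ((wp a w : G) : G ⧸ K) = g := by
    rw [← hwg]
    exact map_wp (QuotientGroup.mk' K) a w
  have h4 : Nat.card (G ⧸ K) = K.index := rfl
  rw [h4] at hwl
  rw [← QuotientGroup.eq_one_iff, QuotientGroup.mk_pow, ← h3, ← QuotientGroup.mk_pow, hw w hwl.le]
  rfl

/-- **No nontrivial quotient of `U` is abelian or linear of degree at most `d`.** -/
theorem no_linear_quotient (k n R : ℕ) (hn : 0 < n) : ∃ k' : ℕ, ∀ d N' : ℕ, ∃ N : ℕ,
    ∀ (G : Type u) [Group G] (a : Fin k → G), Subgroup.closure (Set.range a) = ⊤ →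
      (Pw n G).FiniteIndex → (Pw n G).index ≤ R →
      (∀ w : List (Fin k), w.length ≤ N → wp a w ^ n = 1) →
        (∀ (S : Type u) [Group S] (p : Pw n G →* S), Function.Surjective p → AbelianOrLinear d S →
          Subsingleton S) ∧
        ∃ b : Fin k' → Pw n G, Subgroup.closure (Set.range b) = ⊤ ∧
          ∀ v : List (Fin k'), v.length ≤ N' → wp b v ^ n = 1 := by
  obtain ⟨k', L, hS⟩ := schreier.{u} k n R hn
  refine ⟨k', fun d N' => ?_⟩
  obtain ⟨N1, B, hB⟩ := exponent_bound.{u} d n hn 1 k'
  refine ⟨max (max 1 R) (max (L * max N' N1) (B * R).factorial), fun G _ a hgen hfi hidx hw => ?_⟩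
  have hU := Pw_normal n G
  obtain ⟨b, c, hbc, hcl, hbgen⟩ := hS G a (Pw n G) hU hfi hidx hgen
    (fun w hwl => hw w (hwl.trans (le_max_left _ _)))
  have hb : ∀ v : List (Fin k'), v.length ≤ max N' N1 → wp b v ^ n = 1 := by
    intro v hv
    obtain ⟨w, hw1, hw2⟩ := word_flat _ b c hbc hcl v
    apply Subtype.ext
    rw [Subgroup.coe_pow, ← hw2, hw w (hw1.trans ((Nat.mul_le_mul_left _ hv).trans
      ((le_max_left _ _).trans (le_max_right _ _))))]
    rfl
  refine ⟨fun S _ p hp hlin => ?_, b, hbgen, fun v hv => hb v (hv.trans (le_max_left _ _))⟩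
  obtain ⟨hSfin, hScard, _⟩ := hB S (fun j => p (b j)) (by
    have h1 : (Set.range fun j => p (b j)) = p '' Set.range b := by
      rw [← Set.range_comp]
      rfl
    rw [h1, ← MonoidHom.map_closure, hbgen, ← MonoidHom.range_eq_map]
    exact MonoidHom.range_eq_top.2 hp) (series_one hlin) (fun v hv => by
    have h1 : wp (fun j => p (b j)) v = p (wp b v) := (map_wp p b v).symm
    rw [h1, ← map_pow, hb v (hv.trans (le_max_right _ _)), map_one])
  have hker : p.ker.index = Nat.card S := by
    rw [Subgroup.index_ker, MonoidHom.range_eq_top.2 hp, Nat.card_congr Subgroup.topEquiv.toEquiv]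
  have hM : (p.ker.map (Pw n G).subtype).index = Nat.card S * (Pw n G).index := by
    rw [Subgroup.index_map_subtype, hker]
  have hM0 : (p.ker.map (Pw n G).subtype).index ≠ 0 := by
    rw [hM]
    exact mul_ne_zero Nat.card_pos.ne' hfi.index_ne_zero
  obtain ⟨hK0, hKle⟩ := core_index _ hM0 (m := B * R) (by rw [hM]; exact Nat.mul_le_mul hScard hidx)
  have hpow := pow_mem_of_short a hgen n (p.ker.map (Pw n G).subtype).normalCore inferInstance hK0
    (fun w hwl => hw w ((hwl.trans hKle).trans ((le_max_right _ _).trans (le_max_right _ _))))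
  have hUM : Pw n G ≤ p.ker.map (Pw n G).subtype := by
    refine le_trans ?_ (Subgroup.normalCore_le _)
    unfold Pw at hpow ⊢
    rw [Subgroup.closure_le]
    rintro _ ⟨g, rfl⟩
    exact hpow g
  have hone : ∀ s : S, s = 1 := by
    intro s
    obtain ⟨x, rfl⟩ := hp s
    obtain ⟨y, hy, hyx⟩ := hUM x.2
    have : y = x := Subtype.ext hyx
    rw [← this]
    exact hy
  exact ⟨fun s t => by rw [hone s, hone t]⟩

end Pool.Agent.Lib.MP_322c76_al
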